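import Mathlib
import Pool.Agent.Work.MP_841263_r.Core

/-!
# Weak separation in an affine block: statements of the blocks (helper31)

MP_841263_ag, path connectedness of `Stab`. `A` is an affine block (`Block`): a finite length category with simple spherical
objects `G`, connected, with an object of radical class. `(T, F)` is a torsion pair of `A`.

RULES: one file `Pool/Agent/Work/MP_841263_ws/B_<ID>.lean` per block, `import Pool.Agent.Work.MP_841263_ws.Interface`, the `open`,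
`set_option`, `namespace Pool.WS` and `universe` lines of this file, theorem `p_<ID> : Stmt_X → Stmt_Y → Stmt_<ID>` (for
statements about categories `Stmt_X C`, with the `variable` block of this file) with exactly the statements of the column
`uses` as hypotheses, in this order. The lemmas of `MP_841263_r/{Ab,Fin,Rig,Slope,Cfg,Core}.lean` are free (read them:
`SES.mono`, `SES.epi`, `SES.lift`, `SES.desc`, `SES.comp`, `SES.comp'`, `AbSub.exists_of_mono`, `AbSub.kiq`, `FinCat.induction`,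
`FinCat.exists_simple_quot`, `FinCat.exists_simple_sub`, `FinCat.isotypic`, `AbSub.schur`, `AbSub.eulerChar`, `gen_multiset`,
`full_support`, `exists_sum_obj`, `LocalSetting.core`, `SSt.quot`). Auxiliary lemmas with the name of the block in front.
No straight double quotes.
-/

open CategoryTheory CategoryTheory.Limits CategoryTheory.Pretriangulated
open scoped ZeroObject Topology RealInnerProductSpace
open Filter

set_option backward.isDefEq.respectTransparency false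
set_option backward.defeqAttrib.useBackward true
set_option linter.unusedSectionVars false

namespace Pool.WS

open Pool.Stab

universe w v u

section Euclid

/-- Euclidean spaces. -/
abbrev EU (n : ℕ) := EuclideanSpace ℝ (Fin n)

/-- The functional `⟪p, ρ ·⟫`. -/
noncomputable def fn {K : Type u} [AddCommGroup K] {n : ℕ} (ρ : K →+ EU n) (p : EU n) : K →+ ℝ where
  toFun x := ⟪p, ρ x⟫
  map_zero' := by simp
  map_add' x y := by simp [inner_add_right]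

/-- GRM (80 lines). `K = ℤ^n`, the Gram matrix over `ℝ` is positive semidefinite (nonneg on integer vectors, so on rational ones, so on
real ones by density and continuity), so it is `Lᵀ L` (`Matrix.PosSemidef`: square root, or `Matrix.posSemidef_iff_eq_conjTranspose_mul_self`);
`ρ x = L x`. -/
def Stmt_GRM : Prop := ∀ (K : Type u) [AddCommGroup K] [Module.Finite ℤ K] [Module.Free ℤ K]
  (B : K →+ K →+ ℤ), IsPSD B →
  ∃ (n : ℕ) (ρ : K →+ EU n), ∀ x y, ⟪ρ x, ρ y⟫ = (B x y : ℝ)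

/-- CVX (200 lines). `u` = a minimiser of `g x = max_{f ∈ F} ⟪x, f⟫` on `K ∩ unit sphere` (compact, nonempty), `γ = g u > 0`;
`F₀ = {f ∈ F | ⟪u, f⟫ = γ}`; `p₀` = the element of least norm of `convexHull F₀`, `p₀ = ∑_{f ∈ F₀} w f • f`, `w ≥ 0`, sum 1
(`Finset.convexHull_eq`; `w = 0` outside `F₀`). `⟪u, p₀⟫ = γ`; for `f ∈ F₀`: `⟪p₀, f⟫ ≥ ‖p₀‖²` (`norm_eq_iInf_iff_real_inner_le_zero`),
with equality if `w f ≠ 0` (the weighted mean is `‖p₀‖²`). For small `ε > 0`, `u' = u - ε p₀`: `⟪u', f⟫ ≤ γ - ε ‖p₀‖²` for all `f ∈ F` (for `f ∉ F₀`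
because `⟪u, f⟫ < γ`, finitely many) with equality if `w f ≠ 0`. So `u' ∈ K` and `g u' = γ - ε ‖p₀‖² ≥ γ ‖u'‖` (minimality, scaling).
Squaring, `s = ‖p₀‖²`: `(γ - ε s)² ≥ γ² (1 - 2 ε γ + ε² s)`, i.e. `(γ² - s) (2 γ - ε s) ≥ 0`, so `s ≤ γ²`; `γ = ⟪u, p₀⟫ ≤ ‖p₀‖`: equality in
Cauchy Schwarz, `p₀ = γ • u ∈ K`, not 0. -/
def Stmt_CVX : Prop := ∀ (n : ℕ) (K : Set (EU n)) (F : Finset (EU n)), IsClosed K →
  (∀ x ∈ K, ∀ r : ℝ, 0 ≤ r → r • x ∈ K) → (∃ x ∈ K, x ≠ 0) →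
  (∀ x ∈ K, x ≠ 0 → ∃ f ∈ F, 0 < ⟪x, f⟫) →
  (∀ u ∈ K, ∀ w : EU n → ℝ, (∀ f ∈ F, 0 ≤ w f) → ∀ ε : ℝ, 0 ≤ ε →
    (∀ f ∈ F, w f ≠ 0 → ∀ f' ∈ F,
      ⟪u - ε • ∑ g ∈ F, w g • g, f'⟫ ≤ ⟪u - ε • ∑ g ∈ F, w g • g, f⟫) →
    u - ε • ∑ g ∈ F, w g • g ∈ K) →
  ∃ w : EU n → ℝ, (∀ f ∈ F, 0 ≤ w f) ∧ ∑ g ∈ F, w g • g ∈ K ∧ ∑ g ∈ F, w g • g ≠ 0

/-- A finite simply laced root set `R` and a connected subset `P` with the same span. -/
structure RootSet {n : ℕ} (R : Finset (EU n)) (P : Set (EU n)) : Prop where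
  norm : ∀ a ∈ R, ⟪a, a⟫ = (2 : ℝ)
  refl : ∀ a ∈ R, ∀ b ∈ R, b - ⟪b, a⟫ • a ∈ R
  sub : ∀ a ∈ P, a ∈ R
  span : ∀ a ∈ R, a ∈ Submodule.span ℝ P
  conn : ∀ J : Set (EU n), J ⊆ P → J.Nonempty → (∀ a ∈ J, ∀ b ∈ P, b ∉ J → ⟪a, b⟫ = (0 : ℝ)) →
    J = P

/-- ROT (100 lines). `S x = ∑_{a ∈ R} ⟪x, a⟫ • a` is linear and symmetric. For `b ∈ R` the reflection `s y = y - ⟪y, b⟫ • b` permutes `R`
and is an isometry, so `S (s y) = s (S y)`; `y = b`: `S (-b) = s (S b)`, so `S b = c_b • b`, `c_b = ⟪S b, b⟫/2 > 0`. If `⟪b, b'⟫ ≠ 0` then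
`c_b = c_b'` by symmetry; so `c_b` is constant on `P` (`conn`; `P = ∅`: `c = 1`) and `S = c` on the span. -/
def Stmt_ROT : Prop := ∀ (n : ℕ) (R : Finset (EU n)) (P : Set (EU n)), RootSet R P →
  ∃ c : ℝ, 0 < c ∧ ∀ p ∈ Submodule.span ℝ P, ∀ q : EU n,
    ∑ a ∈ R, ⟪p, a⟫ * ⟪q, a⟫ = c * ⟪p, q⟫

/-- ROI (100 lines). Let `p ≠ 0`, `q ≠ 0`. `Rp = {a ∈ R | ⟪p, a⟫ ≠ 0}`, `Rq` are not empty (`p` is in the span of `P`) and disjoint. (1) `a ∈ Rp`,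
`b ∈ Rq` are orthogonal: otherwise `b - ⟪b, a⟫ a ∈ R` is in both. (2) `U = span Rp`: a `b ∈ R` is in `U` or orthogonal to all of `Rp`: if
`b ∉ Rp` and `⟪a, b⟫ ≠ 0`, `a ∈ Rp`, then `a - ⟪a, b⟫ b ∈ Rp`, so `b ∈ U`. (3) `conn` with `J = P ∩ U`: `J = P` (if `J = ∅` then `P`, so its span
and `U`, is orthogonal to `U`, so `U = 0`). So `Rq ⊆ span P ⊆ U` is orthogonal to `Rp`, so `Rq = 0`, contradiction. -/
def Stmt_ROI : Prop := ∀ (n : ℕ) (R : Finset (EU n)) (P : Set (EU n)), RootSet R P →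
  ∀ p ∈ Submodule.span ℝ P, ∀ q ∈ Submodule.span ℝ P,
    (∀ a ∈ R, ⟪p, a⟫ = (0 : ℝ) ∨ ⟪q, a⟫ = (0 : ℝ)) → p = 0 ∨ q = 0

/-- CRR (30 lines; uses ROT ROI): a sum of nonnegative terms that is `≤ 0`. -/
def Stmt_CRR : Prop := ∀ (n : ℕ) (R : Finset (EU n)) (P : Set (EU n)), RootSet R P →
  ∀ p ∈ Submodule.span ℝ P, ∀ q ∈ Submodule.span ℝ P,
    (∀ a ∈ R, 0 ≤ ⟪p, a⟫ * ⟪q, a⟫) → ⟪p, q⟫ ≤ (0 : ℝ) → p = 0 ∨ q = 0

/-- SEQ (60 lines). `‖y k‖ → ∞` (`Filter.tendsto_atTop` and finiteness); a convergent subsequence of `‖y k‖⁻¹ • y k` on the compact unit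
sphere (`IsCompact.tendsto_subseq`). -/
def Stmt_SEQ : Prop := ∀ (n : ℕ) (y : ℕ → EU n), Function.Injective y →
  (∀ r : ℝ, {z | z ∈ Set.range y ∧ ‖z‖ ≤ r}.Finite) →
  ∃ (x : EU n) (φ : ℕ → ℕ), ‖x‖ = 1 ∧ StrictMono φ ∧
    Tendsto (fun k => ‖y (φ k)‖) atTop atTop ∧
    Tendsto (fun k => ‖y (φ k)‖⁻¹ • y (φ k)) atTop (𝓝 x)

end Euclid

section Defs

variable {C : Type u} [Category.{v} C] [Preadditive C] [HasZeroObject C] [HasShift C ℤ]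
  [∀ n : ℤ, (shiftFunctor C n).Additive] [Pretriangulated C] [IsTriangulated C] [Linear ℂ C]
  [∀ n : ℤ, (shiftFunctor C n).Linear ℂ]

/-- The classes of the quotients of `E`. -/
def Quo (A : C → Prop) (E : C) : Set (K0 C) :=
  {x | ∃ (F Q : C) (f : F ⟶ E) (g : E ⟶ Q), SES A f g ∧ cls Q = x}

/-- All quotients have `0 ≤ x`. -/
def TB (A : C → Prop) (x : K0 C →+ ℝ) (E : C) : Prop := A E ∧ ∀ c ∈ Quo A E, 0 ≤ x c

/-- All nonzero quotients have `0 < x`. -/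
def TS (A : C → Prop) (x : K0 C →+ ℝ) (E : C) : Prop := A E ∧
  ∀ (F Q : C) (f : F ⟶ E) (g : E ⟶ Q), SES A f g → ¬ IsZero Q → 0 < x (cls Q)

/-- All subobjects have `x ≤ 0`. -/
def FB (A : C → Prop) (x : K0 C →+ ℝ) (E : C) : Prop := A E ∧ ∀ c ∈ Sub A E, x c ≤ 0

/-- The subgroup generated by the classes of the objects of `A`. -/
noncomputable def KW (A : C → Prop) : AddSubgroup (K0 C) := AddSubgroup.closure {x | ∃ X, A X ∧ cls X = x}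

/-- The span of the vectors of the objects of `A`. -/
def EW {n : ℕ} (A : C → Prop) (ρ : K0 C →+ EU n) : Submodule ℝ (EU n) :=
  Submodule.span ℝ {v | ∃ X, A X ∧ ρ (cls X) = v}

/-- `ρ` is a Euclidean model of the Euler form. -/
structure Gram (hK : IsK3 C) {n : ℕ} (ρ : K0 C →+ EU n) : Prop where
  psd : IsPSD (eulerForm hK)
  even : ∀ x : K0 C, Even (eulerForm hK x x)
  fin : Module.Finite ℤ (K0 C)
  gram : ∀ x y, ⟪ρ x, ρ y⟫ = (eulerForm hK x y : ℝ)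

/-- An affine block. -/
structure Block (hK : IsK3 C) (A : C → Prop) (im : K0 C →+ ℝ) (G : C → Prop) : Prop
    extends LocalSetting hK A im G where
  ex : ∃ D : C, A D ∧ ¬ IsZero D ∧ ∀ y, eulerForm hK (cls D) y = 0

/-- `A'` is the lowering of `A` at the simple object `S` (`S[-1]` is simple in `A'`). -/
def Down (A : C → Prop) (S : C) (A' : C → Prop) : Prop := ∀ X, A' X ↔
  ∃ (F T : C) (f : F ⟶ X) (g : X ⟶ T⟦(-1 : ℤ)⟧) (h : T⟦(-1 : ℤ)⟧ ⟶ F⟦(1 : ℤ)⟧),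
    Triangle.mk f g h ∈ distTriang C ∧ A F ∧ (∀ a : S ⟶ F, a = 0) ∧
      Gen (fun Y => Nonempty (Y ≅ S)) T

/-- `A'` is the raising of `A` at the simple object `S` (`S[1]` is simple in `A'`). -/
def Up (A : C → Prop) (S : C) (A' : C → Prop) : Prop := ∀ X, A' X ↔
  ∃ (T F : C) (f : T⟦(1 : ℤ)⟧ ⟶ X) (g : X ⟶ F) (h : F ⟶ (T⟦(1 : ℤ)⟧)⟦(1 : ℤ)⟧),
    Triangle.mk f g h ∈ distTriang C ∧ A F ∧ (∀ a : F ⟶ S, a = 0) ∧
      Gen (fun Y => Nonempty (Y ≅ S)) T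

/-- A torsion pair of `W` (orthogonality form). -/
def Tors (W T F : C → Prop) : Prop :=
  (∀ E, T E ↔ W E ∧ ∀ Y, F Y → ∀ f : E ⟶ Y, f = 0) ∧
  (∀ Y, F Y ↔ W Y ∧ ∀ E, T E → ∀ f : E ⟶ Y, f = 0)

/-- `A` arises from `W` by lowering: `A` is the tilt at the pair (`W` objects `T` with `T[-1]` in `A`, `W ∩ A`). -/
structure Lowd (W A : C → Prop) : Prop where
  obj : ∀ X, A X → ∃ (F T : C) (f : F ⟶ X) (g : X ⟶ T⟦(-1 : ℤ)⟧)
    (h : T⟦(-1 : ℤ)⟧ ⟶ F⟦(1 : ℤ)⟧), Triangle.mk f g h ∈ distTriang C ∧ W F ∧ A F ∧ W T ∧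
      A (T⟦(-1 : ℤ)⟧)
  dec : ∀ M, W M → ∃ (T F : C) (f : T ⟶ M) (g : M ⟶ F) (h : F ⟶ T⟦(1 : ℤ)⟧),
    Triangle.mk f g h ∈ distTriang C ∧ W T ∧ A (T⟦(-1 : ℤ)⟧) ∧ W F ∧ A F

/-- `A` arises from `W` by raising. -/
structure Upd (W A : C → Prop) : Prop where
  obj : ∀ X, A X → ∃ (F T : C) (f : F⟦(1 : ℤ)⟧ ⟶ X) (g : X ⟶ T)
    (h : T ⟶ (F⟦(1 : ℤ)⟧)⟦(1 : ℤ)⟧), Triangle.mk f g h ∈ distTriang C ∧ W F ∧ A (F⟦(1 : ℤ)⟧) ∧
      W T ∧ A T
  dec : ∀ M, W M → ∃ (T F : C) (f : T ⟶ M) (g : M ⟶ F) (h : F ⟶ T⟦(1 : ℤ)⟧),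
    Triangle.mk f g h ∈ distTriang C ∧ W T ∧ A T ∧ W F ∧ A (F⟦(1 : ℤ)⟧)

/-- A family of affine blocks with moves: `ι` = pairs (stability condition, block of its phase 0). -/
structure Moves (hK : IsK3 C) (ι : Type w) (A : ι → C → Prop) (im : ι → K0 C →+ ℝ)
    (G : ι → C → Prop) (Lo Hi : ι → C → ι → Prop) : Prop where
  block : ∀ i, Block hK (A i) (im i) (G i)
  lo_ex : ∀ i S, G i S → ∃ j, Lo i S j
  hi_ex : ∀ i S, G i S → ∃ j, Hi i S j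
  lo : ∀ i S j, G i S → Lo i S j → Down (A i) S (A j)
  hi : ∀ i S j, G i S → Hi i S j → Up (A i) S (A j)
  lo_im : ∀ i S j, G i S → Lo i S j →
    ∀ x, im j x = im i x - (eulerForm hK x (cls S) : ℝ) * im i (cls S)
  hi_im : ∀ i S j, G i S → Hi i S j →
    ∀ x, im j x = im i x - (eulerForm hK x (cls S) : ℝ) * im i (cls S)

/-- Chains of moves at simple objects in the class `T` of objects of the first block. -/
inductive Chain {ι : Type w} (G : ι → C → Prop) (Mv : ι → C → ι → Prop) (T : C → Prop) (i₀ : ι) :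
    ι → Prop
  | refl : Chain G Mv T i₀ i₀
  | step {i j : ι} {S : C} (h : Chain G Mv T i₀ i) (hG : G i S) (hT : T S) (hm : Mv i S j) :
      Chain G Mv T i₀ j

end Defs

section Category

variable (C : Type u) [Category.{v} C] [Preadditive C] [HasZeroObject C] [HasShift C ℤ]
  [∀ n : ℤ, (shiftFunctor C n).Additive] [Pretriangulated C] [IsTriangulated C] [Linear ℂ C]
  [∀ n : ℤ, (shiftFunctor C n).Linear ℂ]

/-! ### Torsion classes -/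

/-- HTF (20 lines): the image (`kiq`) of `f` is a quotient of `E`, a subobject of `L`. -/
def Stmt_HTF : Prop := ∀ A : C → Prop, AbSub A → ∀ (x : K0 C →+ ℝ) (E L : C), TS A x E →
  FB A x L → ∀ f : E ⟶ L, f = 0

/-- MXS (60 lines). `Sub A L` is finite: take a subobject with `x` maximal (so `> 0`) and among these `im` minimal. For a nonzero quotient `Q`
of `B` with kernel `B'`: `x B' ≤ x B`, and not equal since `im B' < im B`. -/
def Stmt_MXS : Prop := ∀ (A : C → Prop) (im : K0 C →+ ℝ), FinCat A im → ∀ (x : K0 C →+ ℝ) (L : C),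
  A L → ¬ FB A x L → ∃ (B Q : C) (f : B ⟶ L) (g : L ⟶ Q), SES A f g ∧ TS A x B ∧
    0 < x (cls B) ∧ ∀ c ∈ Sub A L, x c ≤ x (cls B)

/-- MXQ (20 lines): for a subobject `N'` of `N` the quotient `N / N'` is a quotient of `M` (`SES.comp'`). -/
def Stmt_MXQ : Prop := ∀ A : C → Prop, AbSub A → ∀ (x : K0 C →+ ℝ) (K M N : C) (f : K ⟶ M)
  (g : M ⟶ N), SES A f g → (∀ c ∈ Quo A M, x (cls N) ≤ x c) → FB A x N

/-- TNG (120 lines; uses HTF MXS MXQ), tangency. `p₀ = ∑ w g • g`, `u' = u - ε p₀`. Suppose `L` is not in `FB u'`: `B` from MXS for `u'`. For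
`f ∈ F` with `w f ≠ 0` let `N` be a quotient of `M` with `f = - ρ (cls N)`: `fn u' (cls N)` is minimal, so `N` is in `FB u'` (MXQ),
`Hom(B, N) = 0` (HTF); `Hom(N, B) = 0` since `M → N → B → L` is 0. So `χ(N, B) = - ext¹ ≤ 0` (`AbSub.eulerChar`) and
`⟪f, ρ (cls B)⟫ ≥ 0`. So `⟪u', ρ B⟫ ≤ ⟪u, ρ B⟫ ≤ 0`, contradiction. -/
def Stmt_TNG : Prop := ∀ (hK : IsK3 C) (n : ℕ) (ρ : K0 C →+ EU n), Gram hK ρ →
  ∀ (A : C → Prop) (im : K0 C →+ ℝ), FinCat A im → ∀ L M : C, A L → A M →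
  (∀ f : M ⟶ L, f = 0) → ∀ F : Finset (EU n), (∀ f, f ∈ F ↔ ∃ c ∈ Quo A M, f = - ρ c) →
  ∀ u : EU n, FB A (fn ρ u) L → ∀ w : EU n → ℝ, (∀ f ∈ F, 0 ≤ w f) → ∀ ε : ℝ, 0 ≤ ε →
  (∀ f ∈ F, w f ≠ 0 → ∀ f' ∈ F,
    ⟪u - ε • ∑ g ∈ F, w g • g, f'⟫ ≤ ⟪u - ε • ∑ g ∈ F, w g • g, f⟫) →
  FB A (fn ρ (u - ε • ∑ g ∈ F, w g • g)) L

/-! ### Classes and roots of a block -/

/-- FSC (40 lines): the classes of the simple objects are finite in number: `full_support` for the multiset of `D` (`ex`,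
`gen_multiset`; see the proof of `LocalSetting.core`). -/
def Stmt_FSC : Prop := ∀ (hK : IsK3 C) (A : C → Prop) (im : K0 C →+ ℝ) (G : C → Prop),
  Block hK A im G → {x | ∃ S, G S ∧ cls S = x}.Finite

/-- FVL (60 lines; uses FSC): `gen_multiset`, `finite_multisets`; the number of elements is `≤ r / min im`. -/
def Stmt_FVL : Prop := ∀ (hK : IsK3 C) (A : C → Prop) (im : K0 C →+ ℝ) (G : C → Prop),
  Block hK A im G → ∀ r : ℝ, {x | ∃ X, A X ∧ cls X = x ∧ im x ≤ r}.Finite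

/-- FUL (80 lines). Let `P c` say: the conclusion holds for `c` and for `- c`. `P` is closed under sums (biproducts, `k + k'`) and negatives; for
`c = cls S`, `S ∈ G`: `k = 0` for `c`; for `- c` take `k = 1`, as `cls S` is one of the summands of `cls D` (`full_support`, `gen_multiset`,
`exists_sum_obj`). Every `cls X` is a sum of `cls S`. -/
def Stmt_FUL : Prop := ∀ (hK : IsK3 C) (A : C → Prop) (im : K0 C →+ ℝ) (G : C → Prop),
  Block hK A im G → ∀ D : C, A D → ¬ IsZero D → (∀ y, eulerForm hK (cls D) y = 0) →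
  ∀ c ∈ KW A, ∃ (k : ℕ) (E : C), A E ∧ cls E = c + k • cls D

/-- SGN (120 lines), sign coherence. `c = s.sum - t.sum` with multisets `s`, `t` of classes of simple objects, disjoint. `2 = B a a + B b b - 2 B a b`
with `B a b ≤ 0` (`LocalSetting.offDiag`), both norms even and `≥ 0`. If `B b b = 0` then `b` is in the radical, and if `t` is not empty
then it has full support (`full_support`), so `s` is empty and `c = - b` has norm 0. The same for `a`. If both norms are `≥ 2` the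
sum is `≥ 4`. -/
def Stmt_SGN : Prop := ∀ (hK : IsK3 C) (n : ℕ) (ρ : K0 C →+ EU n), Gram hK ρ →
  ∀ (A : C → Prop) (im : K0 C →+ ℝ) (G : C → Prop), Block hK A im G → ∀ c ∈ KW A,
  eulerForm hK c c = 2 → (∃ E, A E ∧ cls E = c) ∨ ∃ E, A E ∧ cls E = - c

/-- EXR (60 lines; uses FVL FUL). `c' = c + k • cls D` is the class of an object and has norm 2; `FinU A c'` (FVL with `r = im c'`); `LocalSetting.core` with
`w = - fn ρ q`; a nonzero quotient `Q` has `im E * w Q ≤ w E * im Q < 0` (`SSt.quot`, `lin_apply`). -/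
def Stmt_EXR : Prop := ∀ (hK : IsK3 C) (n : ℕ) (ρ : K0 C →+ EU n), Gram hK ρ →
  ∀ (A : C → Prop) (im : K0 C →+ ℝ) (G : C → Prop), Block hK A im G → ∀ c ∈ KW A,
  eulerForm hK c c = 2 → ∀ q : EU n, 0 < ⟪q, ρ c⟫ → ∃ E, TS A (fn ρ q) E ∧ ρ (cls E) = ρ c

/-- EWG (20 lines): the class of an object is a sum of classes of simple objects (`gen_multiset`). -/
def Stmt_EWG : Prop := ∀ (hK : IsK3 C) (n : ℕ) (ρ : K0 C →+ EU n),
  ∀ (A : C → Prop) (im : K0 C →+ ℝ) (G : C → Prop), Block hK A im G →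
  EW A ρ = Submodule.span ℝ {v | ∃ S, G S ∧ ρ (cls S) = v}

/-- RTS (100 lines). Finite: `IsPSD.finite_mod_radical` with `N = 2` (`ρ x = ρ f` if `x - f` is in the radical). `refl`: `c_b - B c_b c_a • c_a`.
`conn`: `LocalSetting.conn` for `{cls S | ρ (cls S) ∈ J}`. `span`: the `ρ c`, `c ∈ KW A`, are in the span of the `ρ (cls S)`. -/
def Stmt_RTS : Prop := ∀ (hK : IsK3 C) (n : ℕ) (ρ : K0 C →+ EU n), Gram hK ρ →
  ∀ (A : C → Prop) (im : K0 C →+ ℝ) (G : C → Prop), Block hK A im G →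
  ∃ R : Finset (EU n), RootSet R {v | ∃ S, G S ∧ ρ (cls S) = v} ∧
    ∀ a, a ∈ R ↔ ∃ c ∈ KW A, eulerForm hK c c = 2 ∧ ρ c = a

/-- WSZ (120 lines; uses CVX CRR HTF TNG EXR EWG RTS). Suppose no such `x`. `K = {x ∈ EW | FB (fn x) L}` is closed, a cone, not 0; `F` = the vectors
`- ρ c`, `c ∈ Quo A M` (finite: `cls M - Sub A M`). For `x ∈ K`, `x ≠ 0`: `M` is not in `TB x`, so `⟪x, f⟫ > 0` for some `f ∈ F`. CVX, TNG (and
`∑ w f • f ∈ EW`) give `q = ∑ w f • f ∈ K`, `q ≠ 0`. For `a = ρ c` in `R`: if `⟪q, a⟫ > 0`, EXR gives `E ∈ TS q` with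
`ρ E = a`; `Hom(E, L) = 0` (HTF), so `⟪p, a⟫ ≥ 0`; if `⟪q, a⟫ < 0` use `- c`. So all `⟪p, a⟫ ⟪q, a⟫ ≥ 0` and `⟪p, q⟫ = - ∑ w f ⟪p, ρ N⟫ ≤ 0` as the
quotients `N` of `M` have `Hom(N, L) = 0`. CRR: contradiction. -/
def Stmt_WSZ : Prop := ∀ (hK : IsK3 C) (n : ℕ) (ρ : K0 C →+ EU n), Gram hK ρ →
  ∀ (A : C → Prop) (im : K0 C →+ ℝ) (G : C → Prop), Block hK A im G → ∀ L M : C, A L → A M →
  (∀ f : M ⟶ L, f = 0) → (∃ x ∈ EW A ρ, x ≠ 0 ∧ FB A (fn ρ x) L) →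
  (∃ p ∈ EW A ρ, p ≠ 0 ∧ ∀ E, A E → (∀ f : E ⟶ L, f = 0) → 0 ≤ ⟪p, ρ (cls E)⟫) →
  ∃ x ∈ EW A ρ, x ≠ 0 ∧ FB A (fn ρ x) L ∧ TB A (fn ρ x) M

/-! ### Walks -/

/-- DSC (100 lines; uses FSC FVL SGN EWG). For `S ∈ G`, `c = cls S` (norm 2, `AbSub.norm_of_rigid`): the value `im c - ⟪y, ρ c⟫` is bounded by
`r' = |im c| + r ‖ρ c‖` and is `± im x` for the class `x` of an object with `im x ≤ r'` (SGN), so it lies in a finite set (FVL). `y ∈ EW` is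
determined by the `⟪y, ρ (cls S)⟫`, finitely many classes (FSC, EWG). -/
def Stmt_DSC : Prop := ∀ (hK : IsK3 C) (n : ℕ) (ρ : K0 C →+ EU n), Gram hK ρ →
  ∀ (A : C → Prop) (im : K0 C →+ ℝ) (G : C → Prop), Block hK A im G → ∀ r : ℝ,
  {y : EU n | y ∈ EW A ρ ∧ ‖y‖ ≤ r ∧ ∀ c ∈ KW A, eulerForm hK c c = 2 →
    ∃ c' ∈ KW A, eulerForm hK c' c' = 2 ∧ im c - ⟪y, ρ c⟫ = im c'}.Finite

/-- LTM (150 lines; uses SEQ DSC). `y k = ∑_{m < k} im_m (S m) • ρ (cls (S m)) ∈ EW`, `im_k x = im_0 x - ⟪y k, ρ x⟫` (`lo_im`). For a root `c ∈ KW W`: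
`im_k c = im_0 c'` for a root `c'` (induction: `im_(k+1) c = im_k (c - χ(c, S_k) S_k)`, `S_k ∈ W`), so DSC applies to `y k`. The `y k` are
different: for `k < j` `S_k[-1]` is in `A_j` (`Down` with `F = 0`, then `F = S_k[-1]`, `T = 0`: `Hom(S_j, S_k[-1]) = 0` in `W`), so
`im_j S_k < 0 < im_k S_k`. SEQ gives `x`. `Y ∈ F`: `Y ∈ A_k` for all `k` (`Down` with `T = 0`), so `0 ≤ im_0 Y - ⟪y k, ρ Y⟫`; divide by
`‖y (φ k)‖ → ∞`. -/
def Stmt_LTM : Prop := ∀ (hK : IsK3 C) (n : ℕ) (ρ : K0 C →+ EU n), Gram hK ρ →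
  ∀ (ι : Type w) (A : ι → C → Prop) (im : ι → K0 C →+ ℝ) (G : ι → C → Prop)
  (Lo Hi : ι → C → ι → Prop), Moves hK ι A im G Lo Hi → ∀ (i : ℕ → ι) (S : ℕ → C)
  (T F : C → Prop), Tors (A (i 0)) T F → (∀ k, G (i k) (S k)) → (∀ k, T (S k)) →
  (∀ k, Lo (i k) (S k) (i (k + 1))) →
  ∃ x ∈ EW (A (i 0)) ρ, x ≠ 0 ∧ ∀ Y, F Y → ⟪x, ρ (cls Y)⟫ ≤ (0 : ℝ)

/-- UTM (150 lines; uses SEQ DSC). As LTM with `S_k[1] ∈ A_j` for `k < j` (`Hom(S_k[1], S_j) = 0`), `E ∈ T` is in `A_k` for all `k` (`Up` with `T = 0`: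
`Hom(E, S_k) = 0`), `0 ≤ im_0 E - ⟪y k, ρ E⟫`; `x` = minus the limit direction. -/
def Stmt_UTM : Prop := ∀ (hK : IsK3 C) (n : ℕ) (ρ : K0 C →+ EU n), Gram hK ρ →
  ∀ (ι : Type w) (A : ι → C → Prop) (im : ι → K0 C →+ ℝ) (G : ι → C → Prop)
  (Lo Hi : ι → C → ι → Prop), Moves hK ι A im G Lo Hi → ∀ (i : ℕ → ι) (S : ℕ → C)
  (T F : C → Prop), Tors (A (i 0)) T F → (∀ k, G (i k) (S k)) → (∀ k, F (S k)) →
  (∀ k, Hi (i k) (S k) (i (k + 1))) →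
  ∃ x ∈ EW (A (i 0)) ρ, x ≠ 0 ∧ ∀ E, T E → 0 ≤ ⟪x, ρ (cls E)⟫

/-- ISS (50 lines): the maximal isotypic subobject, dual to `FinCat.isotypic`: by `FinCat.induction`; if `f : S ⟶ E` is not 0 it is mono
(`S` is simple), apply the induction to the quotient and take the preimage (`SES.comp'`). -/
def Stmt_ISS : Prop := ∀ (A : C → Prop) (im : K0 C →+ ℝ), FinCat A im → ∀ S : C, SimpleIn A S →
  ∀ E, A E → ∃ (T Q : C) (a : T ⟶ E) (q : E ⟶ Q), SES A a q ∧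
    Gen (fun Y => Nonempty (Y ≅ S)) T ∧ ∀ f : S ⟶ Q, f = 0

/-- LWS (150 lines; uses ISS). `obj`: `f → X → s[-1]` with `f ∈ A`, `Hom(S, f) = 0`, and `F → f → T[-1]` (`Lowd.obj`). `Hom(S, F) = 0` as `F → f` is mono in `A`, so
`F ∈ A'`. The cone `Y` of `F → X` is an extension of `T[-1]` and `s[-1]` (octahedron, `exists_octa`), so `Y[1] ∈ W`; `T[-1] ∈ A'` (`Hom(S, T[-1]) = 0`
in `W`), `s[-1] ∈ A'`, so `Y ∈ A'`. `dec`: `T → M → F`, ISS: `s → F → F'` with `Hom(S, F') = 0`; `F' ∈ W`: in `F₁ → F' → T₁[-1]` (`Lowd.obj`) the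
epi `F → F' → T₁[-1]` is 0, so `F₁ ≅ F'`. The fibre `T'` of `M → F'` is an extension of `T` and `s`; `T[-1] ∈ A'` as `Hom(S, T[-1]) = 0`. -/
def Stmt_LWS : Prop := ∀ (W A A' : C → Prop) (im : K0 C →+ ℝ), AbSub W → FinCat A im → AbSub A' →
  Lowd W A → ∀ S : C, SimpleIn A S → W S → Down A S A' → Lowd W A'

/-- UPS (150 lines). As LWS, with `FinCat.isotypic` instead of ISS. `obj`: `s[1] → X → f`, `Hom(f, S) = 0`, `F[1] → f → T`: `Hom(T, S) = 0` (epi), `T ∈ A'`; the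
fibre of `X → T` is an extension of `s[1]` and `F[1]`, `Hom(F[1], S) = 0` in `W`. `dec`: `T → M → F`, `T' → T → s` with `Hom(T', S) = 0`; `T' ∈ W`: in
`F₁[1] → T' → T₁` the mono `F₁[1] → T' → T` is 0. `M` is an extension of `T'` and of an extension of `s` and `F`. -/
def Stmt_UPS : Prop := ∀ (W A A' : C → Prop) (im : K0 C →+ ℝ), AbSub W → FinCat A im → AbSub A' →
  Upd W A → ∀ S : C, SimpleIn A S → W S → Up A S A' → Upd W A'

/-- LWE (100 lines). `t → M → f` (`Lowd.dec`), `f` is not zero (otherwise `M ≅ t`). `S` a simple quotient of `f` in `A`; `S ∈ W`: in `F₁ → S → T₁[-1]` the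
composition `f → S → T₁[-1]` is an epi of `A` and 0 (`W`), so `T₁[-1] = 0`, `S ≅ F₁`. `T S`: let `Y ∈ F`, `g : S ⟶ Y` not 0; `f → S → Y` is not 0 (`SES.epi`), and
`M → f → Y` is not 0, as `Hom(t[1], Y) = 0` (`W`); but `M ∈ T`, `Y ∈ F`. -/
def Stmt_LWE : Prop := ∀ (W A : C → Prop) (im : K0 C →+ ℝ), AbSub W → FinCat A im → Lowd W A →
  ∀ T F : C → Prop, Tors W T F → (∀ Y, F Y → A Y) → ∀ M, T M → ¬ A (M⟦(-1 : ℤ)⟧) →
  ∃ S, SimpleIn A S ∧ T S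

/-- UPE (100 lines). `t → N → f` (`Upd.dec`), `t` is not zero. `S` a simple subobject of `t` in `A`; `S ∈ W`: in `F₁[1] → S → T₁` the mono `F₁[1] → S → t`
is 0. `F S`: `E ∈ T`, `a : E ⟶ S`; `E → S → t → N` is 0, so `E → S → t` factors through `f[-1]` and is 0 (`W`), `S → t` is mono in `A` and
`E ∈ A`, so `a = 0`. -/
def Stmt_UPE : Prop := ∀ (W A : C → Prop) (im : K0 C →+ ℝ), AbSub W → FinCat A im → Upd W A →
  ∀ T F : C → Prop, Tors W T F → (∀ E, T E → A E) → ∀ N, F N → ¬ A (N⟦(1 : ℤ)⟧) →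
  ∃ S, SimpleIn A S ∧ F S

/-- SIG (20 lines): a simple quotient in `Gen G` (induction on `Gen` gives a nonzero `S ⟶ S'` or `S' ⟶ S`, `S' ∈ G`), Schur. -/
def Stmt_SIG : Prop := ∀ (hK : IsK3 C) (A : C → Prop) (im : K0 C →+ ℝ) (G : C → Prop),
  LocalSetting hK A im G → ∀ S, SimpleIn A S → ∃ S', G S' ∧ Nonempty (S ≅ S')

/-- WSM (100 lines; uses LTM LWS LWE SIG), the lowering walk. Along a `Chain` (induction): `Lowd (A i₀) (A j)` (LWS; for `i₀`: `T = 0`) and `F ⊆ A j`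
(`Down` with `T = 0`, as `Hom(S, Y) = 0`). If the first alternative fails, LWE and SIG give at every `j` of the chain some `S ∈ G j` with `T S`
(`T` is closed under isomorphisms), `lo_ex` the next index: an infinite sequence, LTM. -/
def Stmt_WSM : Prop := ∀ (hK : IsK3 C) (n : ℕ) (ρ : K0 C →+ EU n), Gram hK ρ →
  ∀ (ι : Type w) (A : ι → C → Prop) (im : ι → K0 C →+ ℝ) (G : ι → C → Prop)
  (Lo Hi : ι → C → ι → Prop), Moves hK ι A im G Lo Hi → ∀ (i₀ : ι) (T F : C → Prop),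
  Tors (A i₀) T F →
  (∃ j, Chain G Lo T i₀ j ∧ (∀ Y, F Y → A j Y) ∧ ∀ E, T E → A j (E⟦(-1 : ℤ)⟧)) ∨
  ∃ x ∈ EW (A i₀) ρ, x ≠ 0 ∧ ∀ Y, F Y → ⟪x, ρ (cls Y)⟫ ≤ (0 : ℝ)

/-- WSP (100 lines; uses UTM UPS UPE SIG), the raising walk. -/
def Stmt_WSP : Prop := ∀ (hK : IsK3 C) (n : ℕ) (ρ : K0 C →+ EU n), Gram hK ρ →
  ∀ (ι : Type w) (A : ι → C → Prop) (im : ι → K0 C →+ ℝ) (G : ι → C → Prop)
  (Lo Hi : ι → C → ι → Prop), Moves hK ι A im G Lo Hi → ∀ (i₀ : ι) (T F : C → Prop),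
  Tors (A i₀) T F →
  (∃ j, Chain G Hi F i₀ j ∧ (∀ E, T E → A j E) ∧ ∀ Y, F Y → A j (Y⟦(1 : ℤ)⟧)) ∨
  ∃ x ∈ EW (A i₀) ρ, x ≠ 0 ∧ ∀ E, T E → 0 ≤ ⟪x, ρ (cls E)⟫

/-- TPR (70 lines): a class closed under quotients and extensions is the torsion class of a torsion pair. `FinCat.induction`: every `E ∈ W` has
`t → E → f` with `T t` and `Hom(T, f) = 0` (if some `T`-object has a nonzero map to `E`, its image `I` is in `T`; apply the induction to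
`E / I` and take the preimage). -/
def Stmt_TPR : Prop := ∀ (W : C → Prop) (im : K0 C →+ ℝ), FinCat W im → ∀ T : C → Prop,
  (∀ E, T E → W E) → (∀ E, IsZero E → T E) →
  (∀ (X Y Z : C) (f : X ⟶ Y) (g : Y ⟶ Z), SES W f g → T Y → T Z) →
  (∀ (X Y Z : C) (f : X ⟶ Y) (g : Y ⟶ Z), SES W f g → T X → T Z → T Y) →
  Tors W T (fun Y => W Y ∧ ∀ E, T E → ∀ f : E ⟶ Y, f = 0)

/-- WSF (60 lines; uses WSM WSP WSZ), **weak separation**. `T E = (A i₀ E ∧ Hom(E, L) = 0)`, `F Y = (A i₀ Y ∧ Hom(T, Y) = 0)`: `Tors` is immediate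
(`L ∈ F`), `F` is closed under subobjects, so `x ≤ 0` on `F` gives `FB x L`. -/
def Stmt_WSF : Prop := ∀ (hK : IsK3 C) (n : ℕ) (ρ : K0 C →+ EU n), Gram hK ρ →
  ∀ (ι : Type w) (A : ι → C → Prop) (im : ι → K0 C →+ ℝ) (G : ι → C → Prop)
  (Lo Hi : ι → C → ι → Prop), Moves hK ι A im G Lo Hi → ∀ (i₀ : ι) (L M : C), A i₀ L →
  A i₀ M → (∀ f : M ⟶ L, f = 0) →
  (∃ j, Chain G Lo (fun E => A i₀ E ∧ ∀ f : E ⟶ L, f = 0) i₀ j ∧ A j L ∧ A j (M⟦(-1 : ℤ)⟧)) ∨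
  (∃ j, Chain G Hi (fun Y => A i₀ Y ∧ ∀ E, (A i₀ E ∧ ∀ f : E ⟶ L, f = 0) →
    ∀ f : E ⟶ Y, f = 0) i₀ j ∧ A j M ∧ A j (L⟦(1 : ℤ)⟧)) ∨
  ∃ x ∈ EW (A i₀) ρ, x ≠ 0 ∧ FB (A i₀) (fn ρ x) L ∧ TB (A i₀) (fn ρ x) M

end Category

end Pool.WS
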