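import Mathlib
import Pool.Agent.Work.MP_841263_ws.Interface

/-!
# Block CRR: a sum of nonnegative terms that is nonpositive
-/

open CategoryTheory CategoryTheory.Limits CategoryTheory.Pretriangulated
open scoped ZeroObject Topology RealInnerProductSpace
open Filter

set_option backward.isDefEq.respectTransparency false
set_option backward.defeqAttrib.useBackward true
set_option linter.unusedSectionVars false

namespace Pool.WS

open Pool.Stab

universe w v u

theorem p_CRR : Stmt_ROT → Stmt_ROI → Stmt_CRR := by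
  intro hROT hROI n R P hR p hp q hq hnn hle
  obtain ⟨c, hc, hS⟩ := hROT n R P hR
  have h1 : ∑ a ∈ R, ⟪p, a⟫ * ⟪q, a⟫ = c * ⟪p, q⟫ := hS p hp q
  have h2 : ∑ a ∈ R, ⟪p, a⟫ * ⟪q, a⟫ ≤ (0 : ℝ) := by
    rw [h1]
    exact mul_nonpos_of_nonneg_of_nonpos hc.le hle
  have h3 : ∑ a ∈ R, ⟪p, a⟫ * ⟪q, a⟫ = (0 : ℝ) :=
    le_antisymm h2 (Finset.sum_nonneg hnn)
  have h4 := (Finset.sum_eq_zero_iff_of_nonneg hnn).1 h3
  refine hROI n R P hR p hp q hq (fun a ha => ?_)
  exact mul_eq_zero.1 (h4 a ha)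

end Pool.WS
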