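import Pool.Agent.Work.MP_841263_ws.Interface

/-!
# Block CVX: convex descent, the element of least norm
-/

open CategoryTheory CategoryTheory.Limits CategoryTheory.Pretriangulated
open scoped ZeroObject Topology RealInnerProductSpace
open Filter

set_option backward.isDefEq.respectTransparency false
set_option backward.defeqAttrib.useBackward true
set_option linter.unusedSectionVars false

namespace Pool.WS

open Pool.Stab

universe w v u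

/-- The element of least norm of the convex hull of a finite set. -/
lemma CVX_least {n : ℕ} (F₀ : Finset (EU n)) (h : F₀.Nonempty) :
    ∃ w : EU n → ℝ, (∀ f ∈ F₀, 0 ≤ w f) ∧ ∑ f ∈ F₀, w f = 1 ∧
      ∀ f ∈ F₀, ‖∑ g ∈ F₀, w g • g‖ ^ 2 ≤ ⟪∑ g ∈ F₀, w g • g, f⟫ := by
  have hne : (convexHull ℝ (F₀ : Set (EU n))).Nonempty :=
    convexHull_nonempty_iff.2 (Finset.coe_nonempty.2 h)
  have hcl : IsComplete (convexHull ℝ (F₀ : Set (EU n))) :=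
    (F₀.finite_toSet.isCompact_convexHull ℝ).isComplete
  obtain ⟨v, hv, hvmin⟩ :=
    exists_norm_eq_iInf_of_complete_convex hne hcl (convex_convexHull ℝ _) 0
  have hin := (norm_eq_iInf_iff_real_inner_le_zero (convex_convexHull ℝ _) hv).1 hvmin
  obtain ⟨w, hw0, hw1, hwv⟩ := Finset.mem_convexHull'.1 hv
  refine ⟨w, hw0, hw1, ?_⟩
  rw [hwv]
  intro f hf
  have h1 := hin f (subset_convexHull ℝ _ hf)
  rw [zero_sub, inner_neg_left, inner_sub_right, real_inner_self_eq_norm_sq] at h1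
  linarith

/-- The minimiser of the maximum of finitely many linear functionals on a closed cone. -/
lemma CVX_min {n : ℕ} {K : Set (EU n)} {F : Finset (EU n)} (hK : IsClosed K)
    (hcone : ∀ x ∈ K, ∀ r : ℝ, 0 ≤ r → r • x ∈ K) (hne : ∃ x ∈ K, x ≠ 0)
    (hpos : ∀ x ∈ K, x ≠ 0 → ∃ f ∈ F, 0 < ⟪x, f⟫) :
    ∃ (u : EU n) (γ : ℝ), u ∈ K ∧ ‖u‖ = 1 ∧ 0 < γ ∧ (∀ f ∈ F, ⟪u, f⟫ ≤ γ) ∧
      (∃ f ∈ F, ⟪u, f⟫ = γ) ∧ ∀ x ∈ K, ∃ f ∈ F, γ * ‖x‖ ≤ ⟪x, f⟫ := by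
  obtain ⟨x₀, hx₀, hx₀0⟩ := hne
  obtain ⟨f₀, hf₀, -⟩ := hpos x₀ hx₀ hx₀0
  have hF : F.Nonempty := ⟨f₀, hf₀⟩
  have hcomp : IsCompact (K ∩ Metric.sphere (0 : EU n) 1) :=
    (isCompact_sphere 0 1).inter_left hK
  have hnorm : ∀ x ∈ K, x ≠ 0 → ‖x‖⁻¹ • x ∈ K ∩ Metric.sphere (0 : EU n) 1 := by
    intro x hx hx0
    have h1 : 0 < ‖x‖ := norm_pos_iff.2 hx0
    refine ⟨hcone x hx _ (by positivity), ?_⟩
    rw [mem_sphere_zero_iff_norm, norm_smul, norm_inv, norm_norm]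
    exact inv_mul_cancel₀ h1.ne'
  have hnem : (K ∩ Metric.sphere (0 : EU n) 1).Nonempty := ⟨_, hnorm x₀ hx₀ hx₀0⟩
  have hcont : Continuous (fun x : EU n => F.sup' hF (fun f => ⟪x, f⟫)) :=
    Continuous.finset_sup'_apply hF (fun f _ => by fun_prop)
  obtain ⟨u, ⟨huK, hu1⟩, hmin⟩ := hcomp.exists_isMinOn hnem hcont.continuousOn
  rw [mem_sphere_zero_iff_norm] at hu1
  have hu0 : u ≠ 0 := by
    intro h0
    rw [h0, norm_zero] at hu1
    norm_num at hu1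
  obtain ⟨γ, hγ⟩ : ∃ γ : ℝ, γ = F.sup' hF (fun f => ⟪u, f⟫) := ⟨_, rfl⟩
  have hle : ∀ f ∈ F, ⟪u, f⟫ ≤ γ := by
    intro f hf
    rw [hγ]
    exact Finset.le_sup' (fun f => ⟪u, f⟫) hf
  have hex : ∃ f ∈ F, ⟪u, f⟫ = γ := by
    obtain ⟨f, hf, hf2⟩ := Finset.exists_mem_eq_sup' hF (fun f => ⟪u, f⟫)
    exact ⟨f, hf, by rw [hγ, hf2]⟩
  refine ⟨u, γ, huK, hu1, ?_, hle, hex, ?_⟩
  · obtain ⟨f, hf, hf2⟩ := hpos u huK hu0
    exact lt_of_lt_of_le hf2 (hle f hf)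
  · intro x hx
    by_cases hx0 : x = 0
    · refine ⟨f₀, hf₀, ?_⟩
      rw [hx0, norm_zero, inner_zero_left, mul_zero]
    · have h1 : 0 < ‖x‖ := norm_pos_iff.2 hx0
      have h2 := hmin (hnorm x hx hx0)
      have h3 : γ ≤ F.sup' hF (fun f => ⟪‖x‖⁻¹ • x, f⟫) := by
        rw [hγ]
        exact h2
      obtain ⟨f, hf, hf2⟩ := Finset.exists_mem_eq_sup' hF (fun f => ⟪‖x‖⁻¹ • x, f⟫)
      refine ⟨f, hf, ?_⟩
      rw [hf2, real_inner_smul_left] at h3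
      calc γ * ‖x‖ ≤ (‖x‖⁻¹ * ⟪x, f⟫) * ‖x‖ := mul_le_mul_of_nonneg_right h3 h1.le
        _ = ⟪x, f⟫ := by field_simp

/-- Real numbers. -/
lemma CVX_real {γ s ε : ℝ} (hγ : 0 < γ) (hε : 0 < ε) (h2 : 0 < 2 * γ - ε * s)
    (h : γ ^ 2 * (1 - 2 * ε * γ + ε ^ 2 * s) ≤ (γ - ε * s) ^ 2) : s ≤ γ ^ 2 := by
  by_contra hcon
  push Not at hcon
  have h3 : 0 < (s - γ ^ 2) * (2 * γ - ε * s) := mul_pos (by linarith) h2
  have h4 : 0 < ε * ((s - γ ^ 2) * (2 * γ - ε * s)) := mul_pos hε h3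
  have h5 : (γ - ε * s) ^ 2 - γ ^ 2 * (1 - 2 * ε * γ + ε ^ 2 * s) =
      - (ε * ((s - γ ^ 2) * (2 * γ - ε * s))) := by ring
  linarith

/-- **Block CVX.** -/
theorem p_CVX : Stmt_CVX := by
  intro n K F hK hcone hne hpos htan
  classical
  obtain ⟨u, γ, huK, hu1, hγ, hle, ⟨f₁, hf₁, hf₁γ⟩, hmin⟩ := CVX_min hK hcone hne hpos
  obtain ⟨F₀, hF₀⟩ : ∃ F₀ : Finset (EU n), F₀ = F.filter (fun f => ⟪u, f⟫ = γ) := ⟨_, rfl⟩
  have hmem : ∀ f, f ∈ F₀ ↔ f ∈ F ∧ ⟪u, f⟫ = γ := by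
    intro f
    rw [hF₀, Finset.mem_filter]
  obtain ⟨w, hw0, hw1, hwp⟩ := CVX_least F₀ ⟨f₁, (hmem f₁).2 ⟨hf₁, hf₁γ⟩⟩
  obtain ⟨p, hp⟩ : ∃ p : EU n, p = ∑ g ∈ F₀, w g • g := ⟨_, rfl⟩
  rw [← hp] at hwp
  -- weights on `F`
  obtain ⟨w', hw'⟩ : ∃ w' : EU n → ℝ, w' = fun f => if f ∈ F₀ then w f else 0 := ⟨_, rfl⟩
  have hw'0 : ∀ f ∈ F, 0 ≤ w' f := by
    intro f _
    rw [hw']
    by_cases hf : f ∈ F₀
    · simp only [hf, if_true]
      exact hw0 f hf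
    · simp only [hf, if_false]
      exact le_rfl
  have hsub : F₀ ⊆ F := fun f hf => ((hmem f).1 hf).1
  have hsum : ∑ g ∈ F, w' g • g = p := by
    rw [hp, ← Finset.sum_subset hsub]
    · refine Finset.sum_congr rfl ?_
      intro g hg
      rw [hw']
      simp only [hg, if_true]
    · intro g _ hg
      rw [hw']
      simp only [hg, if_false, zero_smul]
  obtain ⟨s, hs⟩ : ∃ s : ℝ, s = ‖p‖ ^ 2 := ⟨_, rfl⟩
  rw [← hs] at hwp
  have hup : ⟪u, p⟫ = γ := by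
    rw [hp, inner_sum]
    have h1 : ∀ g ∈ F₀, ⟪u, w g • g⟫ = w g * γ := by
      intro g hg
      rw [real_inner_smul_right, ((hmem g).1 hg).2]
    rw [Finset.sum_congr rfl h1, ← Finset.sum_mul, hw1, one_mul]
  have hpp : ∑ g ∈ F₀, w g * (⟪p, g⟫ - s) = 0 := by
    have h1 : ∑ g ∈ F₀, w g * ⟪p, g⟫ = ⟪p, p⟫ := by
      nth_rewrite 3 [hp]
      rw [inner_sum]
      refine Finset.sum_congr rfl ?_
      intro g _
      rw [real_inner_smul_right]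
    have h2 : ∑ g ∈ F₀, w g * (⟪p, g⟫ - s) = ∑ g ∈ F₀, w g * ⟪p, g⟫ - (∑ g ∈ F₀, w g) * s := by
      rw [Finset.sum_mul, ← Finset.sum_sub_distrib]
      refine Finset.sum_congr rfl ?_
      intro g _
      ring
    rw [h2, h1, hw1, real_inner_self_eq_norm_sq, ← hs]
    ring
  have heq : ∀ g ∈ F₀, w g ≠ 0 → ⟪p, g⟫ = s := by
    intro g hg hg0
    have h1 := (Finset.sum_eq_zero_iff_of_nonneg
      (fun i hi => mul_nonneg (hw0 i hi) (sub_nonneg.2 (hwp i hi)))).1 hpp g hg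
    rcases mul_eq_zero.1 h1 with h2 | h2
    · exact absurd h2 hg0
    · linarith
  -- a small `ε`
  have hev : ∀ᶠ ε in 𝓝[>] (0 : ℝ), (∀ f ∈ F, ⟪u, f⟫ - ε * ⟪p, f⟫ ≤ γ - ε * s) ∧
      0 < 2 * γ - ε * s ∧ 0 < γ - ε * s := by
    have hpt : ∀ a b : ℝ, 0 < a → ∀ᶠ ε in 𝓝[>] (0 : ℝ), 0 < a - ε * b := by
      intro a b ha
      have hc : ContinuousAt (fun ε : ℝ => a - ε * b) 0 := by fun_prop
      have h1 : (0:ℝ) < (fun ε : ℝ => a - ε * b) 0 := by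
        show 0 < a - 0 * b
        linarith
      exact (hc.eventually (lt_mem_nhds h1)).filter_mono nhdsWithin_le_nhds
    refine Filter.Eventually.and ?_ ((hpt _ _ (by linarith)).and (hpt _ _ hγ))
    rw [Filter.eventually_all_finset]
    intro f hf
    by_cases hf0 : f ∈ F₀
    · filter_upwards [self_mem_nhdsWithin] with ε hε
      have h1 := hwp f hf0
      have h2 := ((hmem f).1 hf0).2
      have h3 : ε * s ≤ ε * ⟪p, f⟫ := mul_le_mul_of_nonneg_left h1 (le_of_lt hε)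
      linarith
    · have h1 : ⟪u, f⟫ < γ := by
        refine lt_of_le_of_ne (hle f hf) ?_
        intro h2
        exact hf0 ((hmem f).2 ⟨hf, h2⟩)
      filter_upwards [hpt (γ - ⟪u, f⟫) (s - ⟪p, f⟫) (by linarith)] with ε hε
      have h3 : ε * (s - ⟪p, f⟫) = ε * s - ε * ⟪p, f⟫ := by ring
      rw [h3] at hε
      linarith
  obtain ⟨ε, ⟨hA, hB, hD⟩, hε⟩ := (hev.and self_mem_nhdsWithin).exists
  have hε0 : 0 < ε := hε
  have hin : ∀ f : EU n, ⟪u - ε • p, f⟫ = ⟪u, f⟫ - ε * ⟪p, f⟫ := by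
    intro f
    rw [inner_sub_left, real_inner_smul_left]
  have hu' : u - ε • p ∈ K := by
    have h1 := htan u huK w' hw'0 ε hε0.le
    rw [hsum] at h1
    apply h1
    intro f hf hwf f' hf'
    have hf0 : f ∈ F₀ := by
      by_contra hcon
      apply hwf
      rw [hw']
      simp only [hcon, if_false]
    have hwf' : w f ≠ 0 := by
      intro h2
      apply hwf
      rw [hw']
      simp only [hf0, if_true]
      exact h2
    rw [hin, hin, ((hmem f).1 hf0).2, heq f hf0 hwf']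
    exact hA f' hf'
  obtain ⟨f₂, hf₂, h2⟩ := hmin _ hu'
  have h3 : γ * ‖u - ε • p‖ ≤ γ - ε * s := by
    rw [hin] at h2
    exact h2.trans (hA f₂ hf₂)
  have hsq : ‖u - ε • p‖ ^ 2 = 1 - 2 * ε * γ + ε ^ 2 * s := by
    rw [norm_sub_sq_real, hu1, norm_smul, real_inner_smul_right, hup, mul_pow, ← hs,
      Real.norm_eq_abs, sq_abs]
    ring
  have h4 : γ ^ 2 * (1 - 2 * ε * γ + ε ^ 2 * s) ≤ (γ - ε * s) ^ 2 := by
    rw [← hsq, ← mul_pow]
    exact pow_le_pow_left₀ (by positivity) h3 2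
  have h5 := CVX_real hγ hε0 hB h4
  -- equality in Cauchy Schwarz
  have hfin : p = γ • u := by
    have h6 : ‖p - γ • u‖ ^ 2 ≤ 0 := by
      rw [norm_sub_sq_real, norm_smul, real_inner_smul_right, real_inner_comm, hup, hu1, ← hs,
        Real.norm_eq_abs, mul_one, sq_abs]
      linarith
    have h7 : ‖p - γ • u‖ = 0 := by
      have h8 := sq_nonneg ‖p - γ • u‖
      have h9 : ‖p - γ • u‖ ^ 2 = 0 := le_antisymm h6 h8
      exact pow_eq_zero_iff (two_ne_zero) |>.1 h9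
    exact sub_eq_zero.1 (norm_eq_zero.1 h7)
  refine ⟨w', hw'0, ?_, ?_⟩
  · rw [hsum, hfin]
    exact hcone u huK γ hγ.le
  · rw [hsum, hfin]
    intro h6
    have h7 : ‖γ • u‖ = 0 := by rw [h6, norm_zero]
    rw [norm_smul, hu1, mul_one, Real.norm_eq_abs, abs_eq_zero] at h7
    linarith

end Pool.WS
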