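import Pool.Agent.Work.MP_841263_ws.Interface

/-!
# Block DSC: discreteness of the walk (typed by helper82)
-/

open CategoryTheory CategoryTheory.Limits CategoryTheory.Pretriangulated
open scoped ZeroObject Topology RealInnerProductSpace
open Filter

set_option backward.isDefEq.respectTransparency false
set_option backward.defeqAttrib.useBackward true
set_option linter.unusedSectionVars false

namespace Pool.WS

open Pool.Stab

universe w v u

variable (C : Type u) [Category.{v} C] [Preadditive C] [HasZeroObject C] [HasShift C ℤ]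
  [∀ n : ℤ, (shiftFunctor C n).Additive] [Pretriangulated C] [IsTriangulated C] [Linear ℂ C]
  [∀ n : ℤ, (shiftFunctor C n).Linear ℂ]

/-- A set of vectors in the span of finitely many vectors with finitely many possible products with each of them. -/
lemma DSC_aux {n : ℕ} (Y : Set (EU n)) (V : Set (EU n)) (hV : V.Finite)
    (hY : ∀ y ∈ Y, y ∈ Submodule.span ℝ V) (W : EU n → Set ℝ) (hW : ∀ v ∈ V, (W v).Finite)
    (h : ∀ y ∈ Y, ∀ v ∈ V, ⟪y, v⟫ ∈ W v) : Y.Finite := by
  have : Fintype V := hV.fintype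
  have hfin : (Set.pi (Set.univ : Set V) (fun v => W v.1)).Finite :=
    Set.Finite.pi (fun v => hW v.1 v.2)
  refine Set.Finite.of_finite_image (f := fun y : EU n => fun v : V => ⟪y, v.1⟫)
    (hfin.subset ?_) ?_
  · rintro _ ⟨y, hy, rfl⟩ v -
    exact h y hy v.1 v.2
  · intro y hy y' hy' hyy
    have h1 : ∀ v ∈ V, ⟪y - y', v⟫ = (0 : ℝ) := by
      intro v hv
      have := congrFun hyy ⟨v, hv⟩
      simp only at this
      rw [inner_sub_left, this, sub_self]
    have h2 : ∀ z ∈ Submodule.span ℝ V, ⟪y - y', z⟫ = (0 : ℝ) := by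
      intro z hz
      induction hz using Submodule.span_induction with
      | mem x hx => exact h1 x hx
      | zero => exact inner_zero_right _
      | add a b _ _ ha hb => rw [inner_add_right, ha, hb, add_zero]
      | smul a x _ hx => rw [inner_smul_right, hx, mul_zero]
    have h3 := h2 (y - y') (Submodule.sub_mem _ (hY y hy) (hY y' hy'))
    exact sub_eq_zero.mp (inner_self_eq_zero.mp h3)

theorem p_DSC : Stmt_FSC C → Stmt_FVL C → Stmt_SGN C → Stmt_EWG C → Stmt_DSC C := by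
  intro hFSC hFVL hSGN hEWG hK n ρ hρ A im G hB r
  have hf := hFSC hK A im G hB
  refine DSC_aux _ {v | ∃ S, G S ∧ ρ (cls S) = v} ?_ ?_
    (fun v => {t | ∃ S, G S ∧ ρ (cls S) = v ∧ ∃ x, (∃ X, A X ∧ cls X = x ∧
      im x ≤ |im (cls S)| + r * ‖ρ (cls S)‖) ∧ (t = im (cls S) - im x ∨ t = im (cls S) + im x)})
    ?_ ?_
  · have : {v | ∃ S, G S ∧ ρ (cls S) = v} = ρ '' {x | ∃ S, G S ∧ cls S = x} := by
      ext v
      constructor
      · rintro ⟨S, hS, rfl⟩
        exact ⟨cls S, ⟨S, hS, rfl⟩, rfl⟩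
      · rintro ⟨_, ⟨S, hS, rfl⟩, rfl⟩
        exact ⟨S, hS, rfl⟩
    rw [this]
    exact hf.image _
  · rintro y ⟨hy, -, -⟩
    rwa [← hEWG hK n ρ A im G hB]
  · intro v _
    have hsub : {t : ℝ | ∃ S, G S ∧ ρ (cls S) = v ∧ ∃ x, (∃ X, A X ∧ cls X = x ∧
        im x ≤ |im (cls S)| + r * ‖ρ (cls S)‖) ∧
          (t = im (cls S) - im x ∨ t = im (cls S) + im x)} ⊆
        ⋃ c ∈ {x | ∃ S, G S ∧ cls S = x},
          ((fun x => im c - im x) '' {x | ∃ X, A X ∧ cls X = x ∧ im x ≤ |im c| + r * ‖ρ c‖}) ∪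
          ((fun x => im c + im x) '' {x | ∃ X, A X ∧ cls X = x ∧ im x ≤ |im c| + r * ‖ρ c‖}) := by
      rintro t ⟨S, hS, -, x, hx, ht⟩
      refine Set.mem_biUnion (x := cls S) ⟨S, hS, rfl⟩ ?_
      rcases ht with ht | ht
      · exact Or.inl ⟨x, hx, ht.symm⟩
      · exact Or.inr ⟨x, hx, ht.symm⟩
    refine Set.Finite.subset (hf.biUnion ?_) hsub
    intro c _
    exact ((hFVL hK A im G hB _).image _).union ((hFVL hK A im G hB _).image _)
  · rintro y ⟨-, hyr, hy⟩ _ ⟨S, hS, rfl⟩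
    have hc : cls S ∈ KW A := AddSubgroup.subset_closure ⟨S, (hB.simple S hS).1, rfl⟩
    have h2 := hB.toAbSub.norm_of_rigid hK (hB.simple S hS) (hB.rigid S hS)
    obtain ⟨c', hc', h2', he⟩ := hy _ hc h2
    have hle : |im c'| ≤ |im (cls S)| + r * ‖ρ (cls S)‖ := by
      rw [← he]
      refine (abs_sub _ _).trans (add_le_add le_rfl ((abs_real_inner_le_norm _ _).trans ?_))
      exact mul_le_mul_of_nonneg_right hyr (norm_nonneg _)
    refine ⟨S, hS, rfl, ?_⟩
    rcases hSGN hK n ρ hρ A im G hB c' hc' h2' with ⟨E, hE, hEc⟩ | ⟨E, hE, hEc⟩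
    · refine ⟨cls E, ⟨E, hE, rfl, ?_⟩, Or.inl ?_⟩
      · rw [hEc]; exact (le_abs_self _).trans hle
      · rw [hEc, ← he]; ring
    · refine ⟨cls E, ⟨E, hE, rfl, ?_⟩, Or.inr ?_⟩
      · rw [hEc, map_neg]; exact (neg_le_abs _).trans hle
      · rw [hEc, map_neg, ← he]; ring

end Pool.WS
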