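import Pool.Agent.Work.MP_841263_ws.Interface

open CategoryTheory CategoryTheory.Limits CategoryTheory.Pretriangulated
open scoped ZeroObject Topology RealInnerProductSpace
open Filter

set_option backward.isDefEq.respectTransparency false
set_option backward.defeqAttrib.useBackward true
set_option linter.unusedSectionVars false

namespace Pool.WS

open Pool.Stab

universe w v u

variable (C : Type u) [Category.{v} C] [Preadditive C] [HasZeroObject C] [HasShift C ℤ]
  [∀ n : ℤ, (shiftFunctor C n).Additive] [Pretriangulated C] [IsTriangulated C] [Linear ℂ C]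
  [∀ n : ℤ, (shiftFunctor C n).Linear ℂ]

theorem p_EWG : Stmt_EWG C := by
  intro hK n ρ A im G hB
  apply le_antisymm
  · unfold EW
    rw [Submodule.span_le]
    rintro v ⟨X, hX, rfl⟩
    obtain ⟨L, hL, hs, -⟩ := gen_multiset (hB.gen X hX)
    rw [← hs, map_multiset_sum]
    apply multiset_sum_mem
    intro y hy
    rw [Multiset.map_map] at hy
    obtain ⟨S, hS, rfl⟩ := Multiset.mem_map.1 hy
    exact Submodule.subset_span ⟨S, hL S hS, rfl⟩
  · apply Submodule.span_mono
    rintro v ⟨S, hS, rfl⟩
    exact ⟨S, (hB.simple S hS).1, rfl⟩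

end Pool.WS
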