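import Pool.Agent.Work.MP_841263_ws.Interface

open CategoryTheory CategoryTheory.Limits CategoryTheory.Pretriangulated
open scoped ZeroObject Topology RealInnerProductSpace
open Filter

set_option backward.isDefEq.respectTransparency false
set_option backward.defeqAttrib.useBackward true
set_option linter.unusedSectionVars false

namespace Pool.WS

open Pool.Stab

universe w v u

section Category

variable (C : Type u) [Category.{v} C] [Preadditive C] [HasZeroObject C] [HasShift C ℤ]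
  [∀ n : ℤ, (shiftFunctor C n).Additive] [Pretriangulated C] [IsTriangulated C] [Linear ℂ C]
  [∀ n : ℤ, (shiftFunctor C n).Linear ℂ]

/-- EXR. -/
theorem p_EXR : Stmt_FVL C → Stmt_FUL C → Stmt_EXR C := by
  intro hFVL hFUL hK n ρ hρ A im G hB c hc hc2 q hq
  obtain ⟨D, hD, hD0, hDr⟩ := hB.ex
  obtain ⟨k, E₀, hE₀, hE₀c⟩ := hFUL hK A im G hB D hD hD0 hDr c hc
  have hDr' : ∀ y, eulerForm hK y (cls D) = 0 := fun y => by
    rw [eulerForm_symm hK y (cls D)]; exact hDr y
  have hρD : ρ (cls D) = 0 := by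
    have h1 := hρ.gram (cls D) (cls D)
    rw [hDr, Int.cast_zero] at h1
    exact inner_self_eq_zero.1 h1
  have hρc : ρ (c + k • cls D) = ρ c := by
    rw [map_add, map_nsmul, hρD, smul_zero, add_zero]
  have hnorm : eulerForm hK (c + k • cls D) (c + k • cls D) = 2 := by
    rw [map_add, map_add, AddMonoidHom.add_apply, AddMonoidHom.add_apply, map_nsmul, map_nsmul,
      map_nsmul, AddMonoidHom.nsmul_apply, AddMonoidHom.nsmul_apply, hDr, hDr, hDr', hc2]
    simp
  have hfin : FinU A (c + k • cls D) := by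
    refine (hFVL hK A im G hB (im (c + k • cls D))).subset ?_
    rintro x ⟨E, hE, hEc, F, Q, f, g, hs, rfl⟩
    refine ⟨F, hs.1, rfl, ?_⟩
    have h1 := hs.cls_eq
    have h2 : 0 ≤ im (cls Q) := hB.toFinCat.nonneg hs.2.2.1
    rw [← hEc, h1, map_add]
    linarith
  obtain ⟨E, hE, hEc⟩ := hB.toLocalSetting.core hρ.psd hρ.even hnorm ⟨E₀, hE₀, hE₀c⟩ hfin
    (-(fn ρ q))
  refine ⟨E, ⟨hE.1, ?_⟩, by rw [hEc, hρc]⟩
  intro F Q f g hs hQ
  have h1 := SSt.quot hB.toFinCat hE hs
  rw [lin_apply] at h1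
  have h2 : 0 < im (cls Q) := hB.toFinCat.pos Q hs.2.2.1 hQ
  have h3 : 0 ≤ im (cls E) := hB.toFinCat.nonneg hE.1
  have h4 : (fn ρ q) (cls E) = ⟪q, ρ c⟫ := by
    change ⟪q, ρ (cls E)⟫ = _
    rw [hEc, hρc]
  rw [AddMonoidHom.neg_apply, AddMonoidHom.neg_apply, h4] at h1
  have h5 : 0 < ⟪q, ρ c⟫ * im (cls Q) := mul_pos hq h2
  have h6 : 0 < im (cls E) * (fn ρ q) (cls Q) := by nlinarith
  by_contra h7
  rw [not_lt] at h7
  nlinarith [mul_nonneg h3 (neg_nonneg.2 h7)]

end Category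

end Pool.WS
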