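import Mathlib
import Pool.Agent.Work.MP_841263_ws.Interface

/-!
# Block FUL: a class of the group of the block plus a multiple of the radical class is the class of an object
-/

open CategoryTheory CategoryTheory.Limits CategoryTheory.Pretriangulated
open scoped ZeroObject Topology RealInnerProductSpace
open Filter

set_option backward.isDefEq.respectTransparency false
set_option backward.defeqAttrib.useBackward true
set_option linter.unusedSectionVars false

namespace Pool.WS

open Pool.Stab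

universe w v u

section Category

variable (C : Type u) [Category.{v} C] [Preadditive C] [HasZeroObject C] [HasShift C ℤ]
  [∀ n : ℤ, (shiftFunctor C n).Additive] [Pretriangulated C] [IsTriangulated C] [Linear ℂ C]
  [∀ n : ℤ, (shiftFunctor C n).Linear ℂ]

variable {C} in
lemma FUL_simple {hK : IsK3 C} {A : C → Prop} {im : K0 C →+ ℝ} {G : C → Prop}
    (h : Block hK A im G) {D : C} (hD : A D) (hD0 : ¬ IsZero D)
    (hrad : ∀ y, eulerForm hK (cls D) y = 0) {S : C} (hS : G S) :
    ∃ E : C, A E ∧ cls E = - cls S + cls D := by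
  classical
  obtain ⟨L, a, b, -⟩ := gen_multiset (h.gen D hD)
  have hpos := h.pos D hD hD0
  have hne : L.map cls ≠ 0 := by
    intro h0
    rw [← b, h0] at hpos
    simp at hpos
  have hR : ∀ x ∈ L.map cls, x ∈ {x | ∃ S, G S ∧ cls S = x} := by
    intro x hx
    obtain ⟨H, hH, rfl⟩ := Multiset.mem_map.1 hx
    exact ⟨H, a H hH, rfl⟩
  have hfull := full_support h.toLocalSetting.offDiag h.conn hR hne (by rw [b]; exact hrad)
    (cls S) ⟨S, hS, rfl⟩
  obtain ⟨S', hS'L, hS'c⟩ := Multiset.mem_map.1 hfull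
  obtain ⟨L', rfl⟩ := Multiset.exists_cons_of_mem hS'L
  obtain ⟨E, hE, hEc, -⟩ := exists_sum_obj h.toAbSub L'
    (fun H hH => (h.simple H (a H (Multiset.mem_cons_of_mem hH))).1)
  refine ⟨E, hE, ?_⟩
  rw [hEc, ← b, Multiset.map_cons, Multiset.sum_cons, hS'c]
  abel

variable {C} in
lemma FUL_neg {hK : IsK3 C} {A : C → Prop} {im : K0 C →+ ℝ} {G : C → Prop}
    (h : Block hK A im G) {D : C} (hD : A D) (hD0 : ¬ IsZero D)
    (hrad : ∀ y, eulerForm hK (cls D) y = 0) (L : Multiset C) (hL : ∀ H ∈ L, G H) :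
    ∃ (k : ℕ) (E : C), A E ∧ cls E = - (L.map cls).sum + k • cls D := by
  induction L using Multiset.induction_on with
  | empty => exact ⟨0, 0, h.toAbSub.zero_mem (isZero_zero C), by
      simp [cls_of_isZero (isZero_zero C)]⟩
  | cons X L ih =>
    obtain ⟨k, E, hE, hc⟩ := ih (fun H hH => hL H (Multiset.mem_cons_of_mem hH))
    obtain ⟨E', hE', hc'⟩ := FUL_simple h hD hD0 hrad (hL X (Multiset.mem_cons_self X L))
    refine ⟨k + 1, E' ⊞ E, h.toAbSub.biprod_mem hE' hE, ?_⟩
    rw [cls_biprod, hc, hc', Multiset.map_cons, Multiset.sum_cons, add_smul, one_smul]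
    abel

theorem p_FUL : Stmt_FUL C := by
  intro hK A im G h D hD hD0 hrad c hc
  have key : (∃ (k : ℕ) (E : C), A E ∧ cls E = c + k • cls D) ∧
      ∃ (k : ℕ) (E : C), A E ∧ cls E = - c + k • cls D := by
    unfold KW at hc
    induction hc using AddSubgroup.closure_induction with
    | mem x hx =>
      obtain ⟨X, hX, rfl⟩ := hx
      refine ⟨⟨0, X, hX, by simp⟩, ?_⟩
      obtain ⟨L, a, b, -⟩ := gen_multiset (h.gen X hX)
      rw [← b]
      exact FUL_neg h hD hD0 hrad L a
    | zero =>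
      refine ⟨⟨0, 0, h.toAbSub.zero_mem (isZero_zero C), ?_⟩,
        ⟨0, 0, h.toAbSub.zero_mem (isZero_zero C), ?_⟩⟩ <;>
      simp [cls_of_isZero (isZero_zero C)]
    | add x y _ _ hx hy =>
      obtain ⟨⟨k1, E1, h1, e1⟩, ⟨k2, E2, h2, e2⟩⟩ := hx
      obtain ⟨⟨l1, F1, g1, f1⟩, ⟨l2, F2, g2, f2⟩⟩ := hy
      refine ⟨⟨k1 + l1, E1 ⊞ F1, h.toAbSub.biprod_mem h1 g1, ?_⟩,
        ⟨k2 + l2, E2 ⊞ F2, h.toAbSub.biprod_mem h2 g2, ?_⟩⟩
      · rw [cls_biprod, e1, f1, add_smul]
        abel
      · rw [cls_biprod, e2, f2, add_smul]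
        abel
    | neg x _ hx =>
      obtain ⟨h1, h2⟩ := hx
      refine ⟨h2, ?_⟩
      rw [neg_neg]
      exact h1
  exact key.1

end Category

end Pool.WS
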