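import Pool.Agent.Work.MP_841263_ws.Interface

open CategoryTheory CategoryTheory.Limits CategoryTheory.Pretriangulated
open scoped ZeroObject Topology RealInnerProductSpace
open Filter

set_option backward.isDefEq.respectTransparency false
set_option backward.defeqAttrib.useBackward true
set_option linter.unusedSectionVars false

namespace Pool.WS

open Pool.Stab

universe w v u

lemma FVL_bound {K : Type u} [AddCommGroup K] (S : Set K) (hS : S.Finite) (im : K →+ ℝ)
    (hpos : ∀ x ∈ S, 0 < im x) : ∃ m : ℝ, 0 < m ∧ ∀ x ∈ S, m ≤ im x := by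
  classical
  rcases S.eq_empty_or_nonempty with h | h
  · exact ⟨1, one_pos, by simp [h]⟩
  · obtain ⟨a, ha, hmin⟩ := hS.exists_minimalFor im S h
    refine ⟨im a, hpos a ha, fun x hx => ?_⟩
    by_contra hlt
    push Not at hlt
    exact absurd (hmin hx hlt.le) (not_le.2 hlt)

lemma FVL_card {K : Type u} [AddCommGroup K] (im : K →+ ℝ) {m : ℝ} (s : Multiset K)
    (h : ∀ x ∈ s, m ≤ im x) : (Multiset.card s : ℝ) * m ≤ im s.sum := by
  induction s using Multiset.induction_on with
  | empty => simp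
  | cons a s ih =>
    have h1 := ih (fun x hx => h x (Multiset.mem_cons_of_mem hx))
    have h2 := h a (Multiset.mem_cons_self a s)
    rw [Multiset.card_cons, Multiset.sum_cons, map_add]
    push_cast
    linarith

variable (C : Type u) [Category.{v} C] [Preadditive C] [HasZeroObject C] [HasShift C ℤ]
  [∀ n : ℤ, (shiftFunctor C n).Additive] [Pretriangulated C] [IsTriangulated C] [Linear ℂ C]
  [∀ n : ℤ, (shiftFunctor C n).Linear ℂ]

theorem p_FVL : Stmt_FSC C → Stmt_FVL C := by
  classical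
  intro hFSC hK A im G h r
  have hS := hFSC hK A im G h
  obtain ⟨m, hm, hmS⟩ := FVL_bound _ hS im (by
    rintro x ⟨S, hGS, rfl⟩
    exact h.pos S (h.simple S hGS).1 (h.simple S hGS).2.1)
  refine ((finite_multisets hS ⌈r / m⌉₊).image Multiset.sum).subset ?_
  rintro x ⟨X, hX, rfl, hr⟩
  obtain ⟨L, a1, b1, -⟩ := gen_multiset (h.gen X hX)
  have hmem : ∀ x ∈ L.map cls, x ∈ {x | ∃ S, G S ∧ cls S = x} := by
    intro x hx
    obtain ⟨H, hH, rfl⟩ := Multiset.mem_map.1 hx
    exact ⟨H, a1 H hH, rfl⟩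
  refine ⟨L.map cls, ⟨hmem, ?_⟩, b1⟩
  have h1 := FVL_card im (L.map cls) (fun x hx => hmS x (hmem x hx))
  rw [b1] at h1
  have h2 : (Multiset.card (L.map cls) : ℝ) ≤ r / m := by
    rw [le_div_iff₀ hm]
    linarith
  have h3 : (Multiset.card (L.map cls) : ℝ) ≤ (⌈r / m⌉₊ : ℝ) := h2.trans (Nat.le_ceil _)
  exact_mod_cast h3

end Pool.WS
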