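import Pool.Agent.Work.MP_841263_ws.Interface

/-!
# Block GRM: a positive semidefinite integer form is a Gram matrix
-/

open CategoryTheory CategoryTheory.Limits CategoryTheory.Pretriangulated
open scoped ZeroObject Topology RealInnerProductSpace
open Filter

set_option backward.isDefEq.respectTransparency false
set_option backward.defeqAttrib.useBackward true
set_option linter.unusedSectionVars false

namespace Pool.WS

open Pool.Stab

universe w v u

theorem GRM_int {n : ℕ} (M : Fin n → Fin n → ℤ)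
    (h : ∀ z : Fin n → ℤ, 0 ≤ ∑ i, ∑ j, z i * z j * M i j) (r : Fin n → ℚ) :
    0 ≤ ∑ i, ∑ j, (r i : ℝ) * (r j : ℝ) * (M i j : ℝ) := by
  obtain ⟨N, hN⟩ : ∃ N : ℕ, N = ∏ i, (r i).den := ⟨_, rfl⟩
  have hNpos : 0 < N := by
    rw [hN]
    exact Finset.prod_pos fun i _ => (r i).den_pos
  have hdvd : ∀ i, ∃ z : ℤ, (N : ℝ) * (r i : ℝ) = z := by
    intro i
    obtain ⟨c, hc⟩ : (r i).den ∣ N := by
      rw [hN]
      exact Finset.dvd_prod_of_mem (fun i => (r i).den) (Finset.mem_univ i)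
    refine ⟨c * (r i).num, ?_⟩
    have h1 : (r i : ℚ) * (r i).den = (r i).num := Rat.mul_den_eq_num (r i)
    have h2 : ((r i : ℚ) : ℝ) * ((r i).den : ℝ) = ((r i).num : ℝ) := by
      have := congrArg (fun q : ℚ => (q : ℝ)) h1
      push_cast at this
      exact this
    rw [hc]
    push_cast
    rw [← h2]
    ring
  choose z hz using hdvd
  have h3 : (N : ℝ) ^ 2 * ∑ i, ∑ j, (r i : ℝ) * (r j : ℝ) * (M i j : ℝ) =
      ((∑ i, ∑ j, z i * z j * M i j : ℤ) : ℝ) := by
    push_cast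
    rw [Finset.mul_sum]
    refine Finset.sum_congr rfl fun i _ => ?_
    rw [Finset.mul_sum]
    refine Finset.sum_congr rfl fun j _ => ?_
    rw [← hz i, ← hz j]
    ring
  have h4 : (0 : ℝ) ≤ (N : ℝ) ^ 2 * ∑ i, ∑ j, (r i : ℝ) * (r j : ℝ) * (M i j : ℝ) := by
    rw [h3]
    exact_mod_cast h z
  have h5 : (0 : ℝ) < (N : ℝ) ^ 2 := by positivity
  exact nonneg_of_mul_nonneg_right h4 h5

theorem GRM_real {n : ℕ} (M : Fin n → Fin n → ℤ)
    (h : ∀ z : Fin n → ℤ, 0 ≤ ∑ i, ∑ j, z i * z j * M i j) (y : Fin n → ℝ) :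
    0 ≤ ∑ i, ∑ j, y i * y j * (M i j : ℝ) := by
  have hcl : IsClosed {y : Fin n → ℝ | 0 ≤ ∑ i, ∑ j, y i * y j * (M i j : ℝ)} := by
    refine isClosed_le continuous_const ?_
    fun_prop
  have hd : Dense (Set.pi Set.univ (fun _ : Fin n => Set.range ((↑) : ℚ → ℝ))) :=
    dense_pi _ fun _ _ => Rat.denseRange_cast
  have hsub : Set.pi Set.univ (fun _ : Fin n => Set.range ((↑) : ℚ → ℝ)) ⊆
      {y : Fin n → ℝ | 0 ≤ ∑ i, ∑ j, y i * y j * (M i j : ℝ)} := by
    intro y hy
    have h1 : ∀ i, ∃ r : ℚ, (r : ℝ) = y i := fun i => hy i (Set.mem_univ i)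
    choose r hr using h1
    have h2 := GRM_int M h r
    simp only [hr] at h2
    exact h2
  exact hcl.closure_subset_iff.2 hsub (hd y)

open Matrix in
open scoped MatrixOrder in
theorem GRM_factor {n : ℕ} (M : Fin n → Fin n → ℤ) (hs : ∀ i j, M i j = M j i)
    (h : ∀ z : Fin n → ℤ, 0 ≤ ∑ i, ∑ j, z i * z j * M i j) :
    ∃ L : Fin n → Fin n → ℝ, ∀ i j, ∑ k, L k i * L k j = (M i j : ℝ) := by
  obtain ⟨A, hA⟩ : ∃ A : Matrix (Fin n) (Fin n) ℝ, A = Matrix.of fun i j => (M i j : ℝ) :=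
    ⟨_, rfl⟩
  have hH : A.IsHermitian := by
    ext i j
    simp [hA, hs j i]
  have hP : A.PosSemidef := by
    refine Matrix.PosSemidef.of_dotProduct_mulVec_nonneg hH fun x => ?_
    have h1 := GRM_real M h x
    have h2 : star x ⬝ᵥ (A *ᵥ x) = ∑ i, ∑ j, x i * x j * (M i j : ℝ) := by
      simp only [dotProduct, mulVec, hA, Matrix.of_apply, Pi.star_apply, star_trivial,
        Finset.mul_sum]
      refine Finset.sum_congr rfl fun i _ => Finset.sum_congr rfl fun j _ => ?_
      ring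
    rw [h2]
    exact h1
  obtain ⟨L, hL⟩ := CStarAlgebra.nonneg_iff_eq_star_mul_self.mp hP.nonneg
  refine ⟨fun i j => L i j, fun i j => ?_⟩
  have h3 : A i j = (star L * L) i j := by rw [← hL]
  rw [Matrix.mul_apply] at h3
  simp only [Matrix.star_apply, star_trivial] at h3
  rw [← h3, hA]
  simp

theorem p_GRM : Stmt_GRM.{u} := by
  intro K _ _ _ B hB
  let b := Module.finBasis ℤ K
  have hexp : ∀ c d : Fin (Module.finrank ℤ K) → ℤ,
      B (∑ i, c i • b i) (∑ j, d j • b j) = ∑ i, ∑ j, c i * d j * B (b i) (b j) := by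
    intro c d
    rw [map_sum B, AddMonoidHom.finsetSum_apply]
    refine Finset.sum_congr rfl fun i _ => ?_
    rw [map_sum]
    refine Finset.sum_congr rfl fun j _ => ?_
    rw [map_zsmul, map_zsmul, AddMonoidHom.coe_smul, Pi.smul_apply, smul_eq_mul, smul_eq_mul]
    ring
  obtain ⟨L, hL⟩ := GRM_factor (fun i j => B (b i) (b j)) (fun i j => hB.symm _ _) (by
    intro z
    rw [← hexp]
    exact hB.nonneg _)
  refine ⟨Module.finrank ℤ K,
    { toFun := fun x => WithLp.toLp 2 (fun k => ∑ i, L k i * (b.repr x i : ℝ))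
      map_zero' := by
        ext k
        simp
      map_add' := by
        intro x y
        ext k
        simp [mul_add, Finset.sum_add_distrib] }, ?_⟩
  intro x y
  have h1 : B x y = ∑ i, ∑ j, b.repr x i * b.repr y j * B (b i) (b j) := by
    rw [← hexp, b.sum_repr, b.sum_repr]
  rw [h1]
  push_cast
  simp only [AddMonoidHom.coe_mk, ZeroHom.coe_mk, PiLp.inner_apply, RCLike.inner_apply,
    conj_trivial]
  have h2 : ∀ k, (∑ j, L k j * (b.repr y j : ℝ)) * (∑ i, L k i * (b.repr x i : ℝ)) =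
      ∑ i, ∑ j, (b.repr x i : ℝ) * (b.repr y j : ℝ) * (L k i * L k j) := by
    intro k
    rw [mul_comm, Finset.sum_mul_sum]
    refine Finset.sum_congr rfl fun i _ => Finset.sum_congr rfl fun j _ => ?_
    ring
  simp only [h2]
  rw [Finset.sum_comm]
  refine Finset.sum_congr rfl fun i _ => ?_
  rw [Finset.sum_comm]
  refine Finset.sum_congr rfl fun j _ => ?_
  rw [← Finset.mul_sum, hL]

end Pool.WS
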