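import Mathlib
import Pool.Agent.Work.MP_841263_ws.Interface

open CategoryTheory CategoryTheory.Limits CategoryTheory.Pretriangulated
open scoped ZeroObject Topology RealInnerProductSpace
open Filter

set_option backward.isDefEq.respectTransparency false
set_option backward.defeqAttrib.useBackward true
set_option linter.unusedSectionVars false

namespace Pool.WS

open Pool.Stab

universe w v u

variable (C : Type u) [Category.{v} C] [Preadditive C] [HasZeroObject C] [HasShift C ℤ]
  [∀ n : ℤ, (shiftFunctor C n).Additive] [Pretriangulated C] [IsTriangulated C] [Linear ℂ C]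
  [∀ n : ℤ, (shiftFunctor C n).Linear ℂ]

theorem p_HTF : Stmt_HTF C := by
  intro A hA x E L hE hL f
  obtain ⟨K, I, Q, k, p, i, q, h1, h2, hpi⟩ := hA.kiq hE.1 hL.1 f
  have hI0 : IsZero I := by
    by_contra hI
    have e1 := hE.2 _ _ _ _ h1 hI
    have e2 := hL.2 _ h2.left_mem
    linarith
  rw [← hpi, hI0.eq_of_tgt p 0, zero_comp]

end Pool.WS
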