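import Pool.Agent.Work.MP_841263_ws.Interface

/-!
LWE (MP_841263_ag, weak separation): the end of the lowering walk.
-/

open CategoryTheory CategoryTheory.Limits CategoryTheory.Pretriangulated
open scoped ZeroObject Topology RealInnerProductSpace
open Filter

set_option backward.isDefEq.respectTransparency false
set_option backward.defeqAttrib.useBackward true
set_option linter.unusedSectionVars false

namespace Pool.WS

open Pool.Stab

universe w v u

theorem p_LWE {C : Type u} [Category.{v} C] [Preadditive C] [HasZeroObject C] [HasShift C ℤ]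
    [∀ n : ℤ, (shiftFunctor C n).Additive] [Pretriangulated C] [IsTriangulated C] [Linear ℂ C]
    [∀ n : ℤ, (shiftFunctor C n).Linear ℂ] : Stmt_LWE C := by
  intro W A im hW hA hL T F hTF hFA M hM hMA
  obtain ⟨t, f, a, b, c, hT, hWt, hAt, hWf, hAf⟩ := hL.dec M ((hTF.1 M).1 hM).1
  have hf0 : ¬ IsZero f := by
    intro h0
    have := iso_of_isZero₃ hT h0
    exact hMA (hA.toAbSub.iso_mem ((shiftFunctor C (-1 : ℤ)).mapIso (asIso a)) hAt)
  obtain ⟨K, S, k, s, hks, hS⟩ := hA.exists_simple_quot f hAf hf0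
  have hAS : A S := hks.2.2.1
  -- `S` is in `W`
  obtain ⟨F₁, T₁, p, q, r, hT₁, hWF₁, hAF₁, hWT₁, hAT₁⟩ := hL.obj S hAS
  have hses : SES A p q := ⟨hAF₁, hAS, hAT₁, r, hT₁⟩
  have hq : q = 0 := by
    apply hks.epi hA.toAbSub hAT₁
    exact hW.hom_neg hWf hWT₁ (by norm_num) (s ≫ q)
  have hz := isZero_of_SES_right hA.toAbSub hses hq
  have := iso_of_isZero₃ hT₁ hz
  have hWS : W S := hW.iso_mem (asIso p) hWF₁
  refine ⟨S, hS, (hTF.1 S).2 ⟨hWS, ?_⟩⟩
  intro Y hY g
  apply hks.epi hA.toAbSub (hFA Y hY)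
  have h1 : b ≫ (s ≫ g) = 0 := ((hTF.1 M).1 hM).2 Y hY _
  obtain ⟨d, hd⟩ := Triangle.yoneda_exact₂ _ (rot_mk hT) (s ≫ g) h1
  rw [hd, hW.hom_pos hWt ((hTF.2 Y).1 hY).1 d, CategoryTheory.Limits.comp_zero]

end Pool.WS
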