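import Pool.Agent.Work.MP_841263_ws.Interface

/-! Block LWS (helper54). -/

open CategoryTheory CategoryTheory.Limits CategoryTheory.Pretriangulated
open scoped ZeroObject Topology RealInnerProductSpace
open Filter

set_option backward.isDefEq.respectTransparency false
set_option backward.defeqAttrib.useBackward true
set_option linter.unusedSectionVars false

namespace Pool.WS

open Pool.Stab

universe w v u

section

variable {C : Type u} [Category.{v} C] [Preadditive C] [HasZeroObject C] [HasShift C ℤ]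
  [∀ n : ℤ, (shiftFunctor C n).Additive] [Pretriangulated C] [IsTriangulated C] [Linear ℂ C]
  [∀ n : ℤ, (shiftFunctor C n).Linear ℂ]

theorem LWS_F {A A' : C → Prop} {S : C} (hD : Down A S A') {F : C} (hF : A F)
    (h : ∀ a : S ⟶ F, a = 0) : A' F := by
  rw [hD]
  have hz : IsZero ((0 : C)⟦(-1 : ℤ)⟧) := (isZero_shift_iff _ _).2 (isZero_zero C)
  refine ⟨F, 0, 𝟙 F, 0, 0, ?_, hF, h, Gen.zero (isZero_zero C)⟩
  refine isomorphic_distinguished _ (contractible_distinguished F) _ ?_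
  refine Triangle.isoMk _ _ (Iso.refl _) (Iso.refl _) (hz.iso (isZero_zero C)) (by simp)
    ((isZero_zero C).eq_of_tgt _ _) ?_
  exact hz.eq_of_src _ _

theorem LWS_T {A A' : C → Prop} (hA : AbSub A) {S : C} (hD : Down A S A') {s : C}
    (hs : Gen (fun Y => Nonempty (Y ≅ S)) s) : A' (s⟦(-1 : ℤ)⟧) := by
  rw [hD]
  exact ⟨0, s, 0, 𝟙 _, 0, contractible_distinguished₁ _, hA.zero_mem (isZero_zero C),
    fun a => (isZero_zero C).eq_of_tgt _ _, hs⟩

theorem LWS_gen {W : C → Prop} (hW : AbSub W) {S : C} (hS : W S) {s : C}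
    (hs : Gen (fun Y => Nonempty (Y ≅ S)) s) : W s := by
  induction hs with
  | zero h => exact hW.zero_mem h
  | of h =>
    obtain ⟨e⟩ := h
    exact hW.iso_mem e.symm hS
  | ext hT _ _ h1 h2 => exact hW.ext_mem hT h1 h2

end

section

variable (C : Type u) [Category.{v} C] [Preadditive C] [HasZeroObject C] [HasShift C ℤ]
  [∀ n : ℤ, (shiftFunctor C n).Additive] [Pretriangulated C] [IsTriangulated C] [Linear ℂ C]
  [∀ n : ℤ, (shiftFunctor C n).Linear ℂ]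

/-- Block LWS. -/
theorem p_LWS : Stmt_ISS C → Stmt_LWS C := by
  intro hISS W A A' im hW hA hA' hL S hS hWS hD
  have hneg : ∀ T : C, W T → ∀ a : S ⟶ T⟦(-1 : ℤ)⟧, a = 0 := fun T hT a =>
    hW.hom_neg hWS hT (by norm_num) a
  refine ⟨?_, ?_⟩
  · intro X hX
    obtain ⟨f0, s, i, p, d, hT1, hf0, hSf0, hs⟩ := (hD X).1 hX
    obtain ⟨F, T, j, q, e, hT2, hWF, hAF, hWT, hAT⟩ := hL.obj f0 hf0
    have hses : SES A j q := ⟨hAF, hf0, hAT, e, hT2⟩
    have hSF : ∀ a : S ⟶ F, a = 0 := fun a => hses.mono hA.toAbSub hS.1 a (hSf0 _)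
    have hF' : A' F := LWS_F hD hAF hSF
    have hT' : A' (T⟦(-1 : ℤ)⟧) := LWS_F hD hAT (hneg T hWT)
    have hs' : A' (s⟦(-1 : ℤ)⟧) := LWS_T hA.toAbSub hD hs
    obtain ⟨Y, y, z, hT3⟩ := distinguished_cocone_triangle (j ≫ i)
    obtain ⟨m, n, r, hT4, -⟩ := exists_octa hT2 hT1 hT3
    have hY' : A' Y := hA'.ext_mem hT4 hT' hs'
    have hWs : W s := LWS_gen hW hWS hs
    have eT : (T⟦(-1 : ℤ)⟧)⟦(1 : ℤ)⟧ ≅ T := shiftNegShift T 1
    have es : (s⟦(-1 : ℤ)⟧)⟦(1 : ℤ)⟧ ≅ s := shiftNegShift s 1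
    have hY1 : W (Y⟦(1 : ℤ)⟧) := hW.ext_mem (Triangle.shift_distinguished _ hT4 1)
      (hW.iso_mem eT.symm hWT) (hW.iso_mem es.symm hWs)
    have eY : Y ≅ (Y⟦(1 : ℤ)⟧)⟦(-1 : ℤ)⟧ := (shiftShiftNeg Y 1).symm
    exact ⟨F, Y⟦(1 : ℤ)⟧, _, _, _, tri_last_iso hT3 eY, hWF, hF', hY1, hA'.iso_mem eY hY'⟩
  · intro M hM
    obtain ⟨T, F, i, p, d, hT1, hWT, hAT, hWF, hAF⟩ := hL.dec M hM
    obtain ⟨s, F', a, q, hses, hs, hSF'⟩ := hISS A im hA S hS F hAF
    have hWs : W s := LWS_gen hW hWS hs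
    have hAF' : A F' := hses.2.2.1
    obtain ⟨F1, T1, j, g, e, hT2, hWF1, hAF1, hWT1, hAT1⟩ := hL.obj F' hAF'
    have hg : g = 0 := hses.epi hA.toAbSub hAT1 g (hW.hom_neg hWF hWT1 (by norm_num) _)
    have hz : IsZero (T1⟦(-1 : ℤ)⟧) := isZero_of_SES_right hA.toAbSub
      (⟨hAF1, hAF', hAT1, e, hT2⟩ : SES A j g) hg
    have hiso : IsIso j := iso_of_isZero₃ hT2 hz
    have hWF' : W F' := hW.iso_mem (asIso j) hWF1
    have hF'' : A' F' := LWS_F hD hAF' hSF'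
    obtain ⟨T', i3, d3, hT3⟩ := distinguished_cocone_triangle₁ (p ≫ q)
    obtain ⟨-, -, -, d2, hT4⟩ := hses
    obtain ⟨m, n, r, hT5, -⟩ := exists_octa_cocone hT1 hT4 hT3
    have hWT' : W T' := hW.ext_mem hT5 hWT hWs
    have hT'' : A' (T⟦(-1 : ℤ)⟧) := LWS_F hD hAT (hneg T hWT)
    have hs' : A' (s⟦(-1 : ℤ)⟧) := LWS_T hA.toAbSub hD hs
    have hAT' : A' (T'⟦(-1 : ℤ)⟧) := hA'.ext_mem (Triangle.shift_distinguished _ hT5 (-1))
      hT'' hs'
    exact ⟨T', F', _, _, _, hT3, hWT', hAT', hWF', hF''⟩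

end

end Pool.WS
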