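import Mathlib
import Pool.Agent.Work.MP_841263_ws.Interface

open CategoryTheory CategoryTheory.Limits CategoryTheory.Pretriangulated
open scoped ZeroObject Topology RealInnerProductSpace
open Filter

set_option backward.isDefEq.respectTransparency false
set_option backward.defeqAttrib.useBackward true
set_option linter.unusedSectionVars false

namespace Pool.WS

open Pool.Stab

universe w v u

variable (C : Type u) [Category.{v} C] [Preadditive C] [HasZeroObject C] [HasShift C ℤ]
  [∀ n : ℤ, (shiftFunctor C n).Additive] [Pretriangulated C] [IsTriangulated C] [Linear ℂ C]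
  [∀ n : ℤ, (shiftFunctor C n).Linear ℂ]

theorem p_MXQ : Stmt_MXQ C := by
  intro A hA x K M N f g h hmin
  refine ⟨h.2.2.1, ?_⟩
  rintro c ⟨N', Q, a, b, hs, rfl⟩
  obtain ⟨F, i, m, n, h1, h2⟩ := h.comp' hA hs
  have h3 := hmin (cls Q) ⟨F, Q, i, g ≫ b, h1, rfl⟩
  have h4 := hs.cls_eq
  rw [h4, map_add] at h3
  linarith

end Pool.WS
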