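import Mathlib
import Pool.Agent.Work.MP_841263_ws.Interface

/-!
# Block MXS: a maximal destabilising subobject
-/

open CategoryTheory CategoryTheory.Limits CategoryTheory.Pretriangulated
open scoped ZeroObject Topology RealInnerProductSpace
open Filter

set_option backward.isDefEq.respectTransparency false
set_option backward.defeqAttrib.useBackward true
set_option linter.unusedSectionVars false

namespace Pool.WS

open Pool.Stab

universe w v u

variable (C : Type u) [Category.{v} C] [Preadditive C] [HasZeroObject C] [HasShift C ℤ]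
  [∀ n : ℤ, (shiftFunctor C n).Additive] [Pretriangulated C] [IsTriangulated C] [Linear ℂ C]
  [∀ n : ℤ, (shiftFunctor C n).Linear ℂ]

theorem p_MXS : Stmt_MXS C := by
  classical
  intro A im h x L hL hFB
  have h1 : ∃ c ∈ Sub A L, 0 < x c := by
    by_contra hcon
    push Not at hcon
    exact hFB ⟨hL, hcon⟩
  obtain ⟨c0, hc0, hc0x⟩ := h1
  have hfin := h.fin L hL
  obtain ⟨c1, hc1, hmax⟩ := Set.exists_max_image (Sub A L) (fun c => x c) hfin ⟨c0, hc0⟩
  have hfin2 : {c | c ∈ Sub A L ∧ x c = x c1}.Finite := hfin.subset (fun c hc => hc.1)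
  obtain ⟨c2, hc2, hmin⟩ := Set.exists_min_image {c | c ∈ Sub A L ∧ x c = x c1}
    (fun c => im c) hfin2 ⟨c1, hc1, rfl⟩
  obtain ⟨⟨B, Q, f, g, hs, hB⟩, hc2x⟩ := hc2
  refine ⟨B, Q, f, g, hs, ⟨hs.1, ?_⟩, ?_, ?_⟩
  · intro F Q' f' g' hs' hQ'
    have e1 : cls F ∈ Sub A L := sub_mono h.toAbSub hs hs'.left_mem
    have e2 : x (cls F) ≤ x c1 := hmax _ e1
    have e3 : x (cls B) = x (cls F) + x (cls Q') := by rw [hs'.cls_eq, map_add]
    have e4 : im (cls B) = im (cls F) + im (cls Q') := by rw [hs'.cls_eq, map_add]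
    have e5 : 0 < im (cls Q') := h.pos Q' hs'.2.2.1 hQ'
    have e6 : x (cls B) = x c1 := by rw [hB]; exact hc2x
    have e7 : x (cls F) ≠ x c1 := by
      intro he
      have e8 : im c2 ≤ im (cls F) := hmin _ ⟨e1, he⟩
      rw [← hB] at e8
      linarith
    have e9 : x (cls F) < x c1 := lt_of_le_of_ne e2 e7
    linarith
  · rw [hB, hc2x]
    exact lt_of_lt_of_le hc0x (hmax _ hc0)
  · intro c hc
    rw [hB, hc2x]
    exact hmax _ hc

end Pool.WS
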