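import Pool.Agent.Work.MP_841263_ws.Interface

/-! # Block ROI: irreducibility (helper68) -/

open CategoryTheory CategoryTheory.Limits CategoryTheory.Pretriangulated
open scoped ZeroObject Topology RealInnerProductSpace
open Filter

set_option backward.isDefEq.respectTransparency false
set_option backward.defeqAttrib.useBackward true
set_option linter.unusedSectionVars false

namespace Pool.WS

open Pool.Stab

universe w v u

lemma ROI_perp {n : ℕ} (A : Set (EU n)) (x : EU n) (h : ∀ a ∈ A, ⟪x, a⟫ = (0 : ℝ)) :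
    ∀ y ∈ Submodule.span ℝ A, ⟪x, y⟫ = (0 : ℝ) := by
  intro y hy
  induction hy using Submodule.span_induction with
  | mem a ha => exact h a ha
  | zero => exact inner_zero_right _
  | add a b _ _ ha hb => rw [inner_add_right, ha, hb, add_zero]
  | smul r a _ ha => rw [inner_smul_right, ha, mul_zero]

/-- A nonzero element of the span is not orthogonal to all roots. -/
lemma ROI_ex {n : ℕ} {R : Finset (EU n)} {P : Set (EU n)} (hR : RootSet R P) {p : EU n}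
    (hp : p ∈ Submodule.span ℝ P) (h0 : p ≠ 0) : ∃ a ∈ R, ⟪p, a⟫ ≠ (0 : ℝ) := by
  by_contra hcon
  push Not at hcon
  have h1 := ROI_perp P p (fun a ha => hcon a (hR.sub a ha)) p hp
  exact h0 (inner_self_eq_zero.1 h1)

/-- Roots seen by `p` and roots seen by `q` are orthogonal. -/
lemma ROI_one {n : ℕ} {R : Finset (EU n)} {P : Set (EU n)} (hR : RootSet R P) {p q : EU n}
    (hpq : ∀ a ∈ R, ⟪p, a⟫ = (0 : ℝ) ∨ ⟪q, a⟫ = (0 : ℝ)) {a b : EU n} (ha : a ∈ R) (hb : b ∈ R)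
    (hpa : ⟪p, a⟫ ≠ (0 : ℝ)) (hqb : ⟪q, b⟫ ≠ (0 : ℝ)) : ⟪b, a⟫ = (0 : ℝ) := by
  by_contra hne
  have hqa : ⟪q, a⟫ = (0 : ℝ) := (hpq a ha).resolve_left hpa
  have hpb : ⟪p, b⟫ = (0 : ℝ) := (hpq b hb).resolve_right hqb
  rcases hpq _ (hR.refl a ha b hb) with h | h
  · rw [inner_sub_right, inner_smul_right, hpb, zero_sub, neg_eq_zero] at h
    exact (mul_ne_zero hne hpa) h
  · rw [inner_sub_right, inner_smul_right, hqa, mul_zero, sub_zero] at h
    exact hqb h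

/-- A root is in the span of the roots seen by `p` or orthogonal to all of them. -/
lemma ROI_two {n : ℕ} {R : Finset (EU n)} {P : Set (EU n)} (hR : RootSet R P) (p : EU n)
    {b : EU n} (hb : b ∈ R) :
    b ∈ Submodule.span ℝ {a : EU n | a ∈ R ∧ ⟪p, a⟫ ≠ (0 : ℝ)} ∨
      ∀ a ∈ {a : EU n | a ∈ R ∧ ⟪p, a⟫ ≠ (0 : ℝ)}, ⟪b, a⟫ = (0 : ℝ) := by
  by_cases hpb : ⟪p, b⟫ = (0 : ℝ)
  · by_cases hall : ∀ a ∈ {a : EU n | a ∈ R ∧ ⟪p, a⟫ ≠ (0 : ℝ)}, ⟪b, a⟫ = (0 : ℝ)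
    · exact Or.inr hall
    · left
      push Not at hall
      obtain ⟨a, ⟨ha, hpa⟩, hba⟩ := hall
      have hab : ⟪a, b⟫ ≠ (0 : ℝ) := by rwa [real_inner_comm]
      have h1 : a - ⟪a, b⟫ • b ∈ R := hR.refl b hb a ha
      have h2 : ⟪p, a - ⟪a, b⟫ • b⟫ ≠ (0 : ℝ) := by
        rw [inner_sub_right, inner_smul_right, hpb, mul_zero, sub_zero]
        exact hpa
      have h3 : a ∈ Submodule.span ℝ {a : EU n | a ∈ R ∧ ⟪p, a⟫ ≠ (0 : ℝ)} :=
        Submodule.subset_span ⟨ha, hpa⟩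
      have h4 : a - ⟪a, b⟫ • b ∈ Submodule.span ℝ {a : EU n | a ∈ R ∧ ⟪p, a⟫ ≠ (0 : ℝ)} :=
        Submodule.subset_span ⟨h1, h2⟩
      have h5 := Submodule.sub_mem _ h3 h4
      rw [sub_sub_cancel] at h5
      have h6 := Submodule.smul_mem _ (⟪a, b⟫)⁻¹ h5
      rwa [smul_smul, inv_mul_cancel₀ hab, one_smul] at h6
  · exact Or.inl (Submodule.subset_span ⟨hb, hpb⟩)

theorem p_ROI : Stmt_ROI := by
  intro n R P hR p hp q hq hpq
  by_contra hcon
  push Not at hcon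
  obtain ⟨hp0, hq0⟩ := hcon
  obtain ⟨a, ha, hpa⟩ := ROI_ex hR hp hp0
  obtain ⟨b, hb, hqb⟩ := ROI_ex hR hq hq0
  set A : Set (EU n) := {a : EU n | a ∈ R ∧ ⟪p, a⟫ ≠ (0 : ℝ)} with hA
  have hself : ∀ c ∈ R, ⟪c, c⟫ = (0 : ℝ) → False := by
    intro c hc h
    rw [hR.norm c hc] at h
    norm_num at h
  -- `J = P ∩ U`
  have hJ : {c : EU n | c ∈ P ∧ c ∈ Submodule.span ℝ A} = P := by
    refine hR.conn _ (fun c hc => hc.1) ?_ ?_
    · by_contra hne
      rw [Set.not_nonempty_iff_eq_empty] at hne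
      have h1 : ∀ c ∈ P, ⟪a, c⟫ = (0 : ℝ) := by
        intro c hc
        rcases ROI_two hR p (hR.sub c hc) with h | h
        · exfalso
          have h2 : c ∈ ({c : EU n | c ∈ P ∧ c ∈ Submodule.span ℝ A} : Set (EU n)) := ⟨hc, h⟩
          rw [hne] at h2
          exact h2
        · rw [real_inner_comm]
          exact h a ⟨ha, hpa⟩
      exact hself a ha (ROI_perp P a h1 a (hR.span a ha))
    · rintro c ⟨hc, hcU⟩ d hd hdJ
      rcases ROI_two hR p (hR.sub d hd) with h | h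
      · exact absurd ⟨hd, h⟩ hdJ
      · rw [real_inner_comm]
        exact ROI_perp A d h c hcU
  have hPU : Submodule.span ℝ P ≤ Submodule.span ℝ A := by
    rw [Submodule.span_le]
    intro c hc
    have h1 : c ∈ ({c : EU n | c ∈ P ∧ c ∈ Submodule.span ℝ A} : Set (EU n)) := by
      rw [hJ]
      exact hc
    exact h1.2
  have h2 : ∀ c ∈ A, ⟪b, c⟫ = (0 : ℝ) := fun c hc => ROI_one hR hpq hc.1 hb hc.2 hqb
  exact hself b hb (ROI_perp A b h2 b (hPU (hR.span b hb)))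

end Pool.WS
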