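import Pool.Agent.Work.MP_841263_ws.Interface

open CategoryTheory CategoryTheory.Limits CategoryTheory.Pretriangulated
open scoped ZeroObject Topology RealInnerProductSpace
open Filter

set_option backward.isDefEq.respectTransparency false
set_option backward.defeqAttrib.useBackward true
set_option linter.unusedSectionVars false

namespace Pool.WS

open Pool.Stab

universe w v u

/-- The form of the root set. -/
noncomputable def ROT_Q {n : ℕ} (R : Finset (EU n)) (p q : EU n) : ℝ := ∑ a ∈ R, ⟪p, a⟫ * ⟪q, a⟫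

theorem ROT_Q_sub {n : ℕ} (R : Finset (EU n)) (p q r : EU n) (t : ℝ) :
    ROT_Q R p (q - t • r) = ROT_Q R p q - t * ROT_Q R p r := by
  unfold ROT_Q
  rw [Finset.mul_sum, ← Finset.sum_sub_distrib]
  refine Finset.sum_congr rfl fun a _ => ?_
  rw [inner_sub_left, real_inner_smul_left]
  ring

theorem ROT_Q_neg {n : ℕ} (R : Finset (EU n)) (p q : EU n) :
    ROT_Q R (-p) q = - ROT_Q R p q := by
  unfold ROT_Q
  rw [← Finset.sum_neg_distrib]
  refine Finset.sum_congr rfl fun a _ => ?_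
  rw [inner_neg_left]
  ring

theorem ROT_Q_comm {n : ℕ} (R : Finset (EU n)) (p q : EU n) : ROT_Q R p q = ROT_Q R q p := by
  unfold ROT_Q
  exact Finset.sum_congr rfl fun a _ => mul_comm _ _

theorem ROT_adj {n : ℕ} (p a b : EU n) : ⟪p - ⟪p, b⟫ • b, a⟫ = (⟪p, a - ⟪a, b⟫ • b⟫ : ℝ) := by
  rw [inner_sub_left, inner_sub_right, real_inner_smul_left, real_inner_smul_right,
    real_inner_comm a b]
  ring

theorem ROT_inv {n : ℕ} {R : Finset (EU n)} {P : Set (EU n)} (h : RootSet R P) {b : EU n}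
    (hb : b ∈ R) (p q : EU n) :
    ROT_Q R (p - ⟪p, b⟫ • b) (q - ⟪q, b⟫ • b) = ROT_Q R p q := by
  unfold ROT_Q
  have hi : ∀ a : EU n, (a - ⟪a, b⟫ • b) - ⟪a - ⟪a, b⟫ • b, b⟫ • b = a := by
    intro a
    rw [inner_sub_left, real_inner_smul_left, h.norm b hb]
    module
  refine Finset.sum_nbij' (fun a => a - ⟪a, b⟫ • b) (fun a => a - ⟪a, b⟫ • b)
    (fun a ha => h.refl b hb a ha) (fun a ha => h.refl b hb a ha) (fun a _ => hi a)
    (fun a _ => hi a) (fun a _ => ?_)
  rw [ROT_adj p a b, ROT_adj q a b]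

theorem ROT_root {n : ℕ} {R : Finset (EU n)} {P : Set (EU n)} (h : RootSet R P) {b : EU n}
    (hb : b ∈ R) (q : EU n) : ROT_Q R b q = ROT_Q R b b / 2 * ⟪b, q⟫ := by
  have h1 := ROT_inv h hb b q
  have h2 : b - ⟪b, b⟫ • b = -b := by
    rw [h.norm b hb]
    module
  rw [h2, ROT_Q_neg, ROT_Q_sub, real_inner_comm] at h1
  linarith

theorem ROT_pos {n : ℕ} {R : Finset (EU n)} {P : Set (EU n)} (h : RootSet R P) {b : EU n}
    (hb : b ∈ R) : 0 < ROT_Q R b b := by
  unfold ROT_Q
  refine Finset.sum_pos' (fun a _ => mul_self_nonneg _) ⟨b, hb, ?_⟩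
  rw [h.norm b hb]
  norm_num

theorem p_ROT : Stmt_ROT := by
  intro n R P h
  rcases P.eq_empty_or_nonempty with hP | ⟨b0, hb0⟩
  · refine ⟨1, one_pos, fun p hp q => ?_⟩
    rw [hP, Submodule.span_empty, Submodule.mem_bot] at hp
    subst hp
    simp
  · have hc : {a | a ∈ P ∧ ROT_Q R a a = ROT_Q R b0 b0} = P := by
      refine h.conn _ (fun a ha => ha.1) ⟨b0, hb0, rfl⟩ ?_
      intro a ha b hb hn
      by_contra hne
      refine hn ⟨hb, ?_⟩
      have h1 := ROT_root h (h.sub a ha.1) b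
      have h2 := ROT_root h (h.sub b hb) a
      rw [ROT_Q_comm, real_inner_comm] at h2
      rw [h1] at h2
      have h3 := mul_right_cancel₀ hne h2
      rw [← ha.2]
      linarith
    refine ⟨ROT_Q R b0 b0 / 2, by have := ROT_pos h (h.sub b0 hb0); linarith, ?_⟩
    intro p hp q
    change ROT_Q R p q = _
    refine Submodule.span_induction (p := fun p _ => ROT_Q R p q = ROT_Q R b0 b0 / 2 * ⟪p, q⟫)
      ?_ ?_ ?_ ?_ hp
    · intro a ha
      have ha' : a ∈ {a | a ∈ P ∧ ROT_Q R a a = ROT_Q R b0 b0} := by rw [hc]; exact ha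
      rw [ROT_root h (h.sub a ha) q, ha'.2]
    · simp [ROT_Q]
    · intro x y _ _ hx hy
      rw [inner_add_left, mul_add, ← hx, ← hy]
      unfold ROT_Q
      rw [← Finset.sum_add_distrib]
      refine Finset.sum_congr rfl fun a _ => ?_
      rw [inner_add_left]
      ring
    · intro t x _ hx
      rw [real_inner_smul_left, mul_left_comm, ← hx]
      unfold ROT_Q
      rw [Finset.mul_sum]
      refine Finset.sum_congr rfl fun a _ => ?_
      rw [real_inner_smul_left]
      ring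

end Pool.WS
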