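import Pool.Agent.Work.MP_841263_ws.Interface

/-! # Weak separation, block RTS (helper36): the root set of a block -/

set_option autoImplicit false

open CategoryTheory CategoryTheory.Limits CategoryTheory.Pretriangulated
open scoped ZeroObject Topology RealInnerProductSpace
open Filter

set_option backward.isDefEq.respectTransparency false
set_option backward.defeqAttrib.useBackward true
set_option linter.unusedSectionVars false

namespace Pool.WS

open Pool.Stab

universe w v u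

section

variable {C : Type u} [Category.{v} C] [Preadditive C] [HasZeroObject C] [HasShift C ℤ]
  [∀ n : ℤ, (shiftFunctor C n).Additive] [Pretriangulated C] [IsTriangulated C] [Linear ℂ C]
  [∀ n : ℤ, (shiftFunctor C n).Linear ℂ]

/-- The class of an object is in the span of the classes of the simple objects. -/
theorem RTS_span {n : ℕ} (ρ : K0 C →+ EU n) {G : C → Prop} {X : C} (hX : Gen G X) :
    ρ (cls X) ∈ Submodule.span ℝ {v | ∃ S, G S ∧ ρ (cls S) = v} := by
  induction hX with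
  | zero h0 => rw [cls_of_isZero h0, map_zero]; exact Submodule.zero_mem _
  | @of X hX => exact Submodule.subset_span ⟨X, hX, rfl⟩
  | ext hT _ _ h1 h2 => rw [cls_mk hT, map_add]; exact Submodule.add_mem _ h1 h2

/-- Reflections preserve the norm 2. -/
theorem RTS_refl {K : Type u} [AddCommGroup K] {B : K →+ K →+ ℤ} (hB : IsPSD B) {a b : K}
    (ha : B a a = 2) (hb : B b b = 2) : B (b - B b a • a) (b - B b a • a) = 2 := by
  have h1 := hB.expand 1 (-(B b a)) b a
  have h2 : (1 : ℤ) • b + (-(B b a)) • a = b - B b a • a := by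
    rw [one_smul, neg_smul, ← sub_eq_add_neg]
  rw [h2] at h1
  rw [h1, ha, hb]
  ring

theorem p_RTS : Stmt_RTS C := by
  intro hK n ρ hG A im G hBl
  have hB : IsPSD (eulerForm hK) := hG.psd
  have hfinK := hG.fin
  obtain ⟨F, hF⟩ := hB.finite_mod_radical 2
  have hfin : {a : EU n | ∃ c ∈ KW A, eulerForm hK c c = 2 ∧ ρ c = a}.Finite := by
    classical
    refine (F.image ρ).finite_toSet.subset ?_
    rintro _ ⟨c, -, hc, rfl⟩
    obtain ⟨f, hf, hcf⟩ := hF c hc.le
    have h0 : ρ (c - f) = 0 := by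
      have h1 := hG.gram (c - f) (c - f)
      have h2 : eulerForm hK (c - f) (c - f) = 0 := hcf _
      rw [h2, Int.cast_zero] at h1
      exact inner_self_eq_zero.1 h1
    rw [map_sub, sub_eq_zero] at h0
    rw [h0]
    exact Finset.mem_coe.2 (Finset.mem_image_of_mem ρ hf)
  have hmemP : ∀ S, G S → cls S ∈ KW A ∧ eulerForm hK (cls S) (cls S) = 2 := by
    intro S hS
    exact ⟨AddSubgroup.subset_closure ⟨S, (hBl.simple S hS).1, rfl⟩,
      hBl.toAbSub.norm_of_rigid hK (hBl.simple S hS) (hBl.rigid S hS)⟩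
  refine ⟨hfin.toFinset, ⟨?_, ?_, ?_, ?_, ?_⟩, fun a => by rw [hfin.mem_toFinset]; rfl⟩
  · intro a ha
    rw [hfin.mem_toFinset] at ha
    obtain ⟨c, -, hc, rfl⟩ := ha
    rw [hG.gram, hc]
    norm_num
  · intro a ha b hb
    rw [hfin.mem_toFinset] at ha hb ⊢
    obtain ⟨c, hcK, hc, rfl⟩ := ha
    obtain ⟨d, hdK, hd, rfl⟩ := hb
    refine ⟨d - eulerForm hK d c • c, sub_mem hdK (zsmul_mem hcK _), RTS_refl hB hc hd, ?_⟩
    rw [map_sub, map_zsmul, hG.gram, Int.cast_smul_eq_zsmul]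
  · rintro a ⟨S, hS, rfl⟩
    rw [hfin.mem_toFinset]
    exact ⟨cls S, (hmemP S hS).1, (hmemP S hS).2, rfl⟩
  · intro a ha
    rw [hfin.mem_toFinset] at ha
    obtain ⟨c, hcK, -, rfl⟩ := ha
    refine AddSubgroup.closure_induction (p := fun x _ => ρ x ∈ Submodule.span ℝ
      {v | ∃ S, G S ∧ ρ (cls S) = v}) ?_ ?_ ?_ ?_ hcK
    · rintro _ ⟨X, hX, rfl⟩
      exact RTS_span ρ (hBl.gen X hX)
    · rw [map_zero]; exact Submodule.zero_mem _
    · intro x y _ _ hx hy
      rw [map_add]; exact Submodule.add_mem _ hx hy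
    · intro x _ hx
      rw [map_neg]; exact Submodule.neg_mem _ hx
  · intro J hJ hJne horth
    have hconn := hBl.conn {x | (∃ S, G S ∧ cls S = x) ∧ ρ x ∈ J} (fun x hx => hx.1) ?_ ?_
    · refine Set.Subset.antisymm hJ ?_
      rintro _ ⟨S, hS, rfl⟩
      have h1 : cls S ∈ {x | ∃ S, G S ∧ cls S = x} := ⟨S, hS, rfl⟩
      rw [← hconn] at h1
      exact h1.2
    · obtain ⟨a, ha⟩ := hJne
      obtain ⟨S, hS, hSa⟩ := hJ ha
      exact ⟨cls S, ⟨S, hS, rfl⟩, by rw [hSa]; exact ha⟩
    · rintro a ⟨-, haJ⟩ b ⟨S, hS, hSb⟩ hbJ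
      have hb : ρ b ∉ J := fun h => hbJ ⟨⟨S, hS, hSb⟩, h⟩
      have h1 := horth (ρ a) haJ (ρ b) ⟨S, hS, by rw [hSb]⟩ hb
      rw [hG.gram] at h1
      exact_mod_cast h1

end

end Pool.WS
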