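import Mathlib
import Pool.Agent.Work.MP_841263_ws.Interface

open CategoryTheory CategoryTheory.Limits CategoryTheory.Pretriangulated
open scoped ZeroObject Topology RealInnerProductSpace
open Filter

set_option backward.isDefEq.respectTransparency false
set_option backward.defeqAttrib.useBackward true
set_option linter.unusedSectionVars false

namespace Pool.WS

open Pool.Stab

universe w v u

theorem p_SEQ : Stmt_SEQ := by
  intro n y hinj hfin
  have hnorm : Tendsto (fun k => ‖y k‖) atTop atTop := by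
    rw [tendsto_atTop]
    intro r
    have h1 : {k : ℕ | ‖y k‖ ≤ r}.Finite := by
      refine Set.Finite.of_finite_image ((hfin r).subset ?_) hinj.injOn
      rintro _ ⟨k, hk, rfl⟩
      exact ⟨⟨k, rfl⟩, hk⟩
    have h2 : ∀ᶠ k in atTop, k ∉ {k : ℕ | ‖y k‖ ≤ r} := by
      rw [← Nat.cofinite_eq_atTop]
      exact h1.eventually_cofinite_notMem
    filter_upwards [h2] with k hk
    exact (not_le.1 hk).le
  obtain ⟨N, hN⟩ : ∃ N, ∀ k, N ≤ k → 1 ≤ ‖y k‖ := by
    rw [tendsto_atTop] at hnorm
    exact eventually_atTop.1 (hnorm 1)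
  have hmem : ∀ k, ‖y (k + N)‖⁻¹ • y (k + N) ∈ Metric.sphere (0 : EU n) 1 := by
    intro k
    have h1 := hN (k + N) (by omega)
    have h2 : ‖y (k + N)‖ ≠ 0 := by linarith
    rw [mem_sphere_zero_iff_norm, norm_smul, norm_inv, norm_norm, inv_mul_cancel₀ h2]
  obtain ⟨x, hx, φ, hφ, hlim⟩ := (isCompact_sphere (0 : EU n) 1).tendsto_subseq hmem
  refine ⟨x, fun k => φ k + N, ?_, ?_, ?_, ?_⟩
  · simpa using hx
  · intro a b hab
    have := hφ hab
    show φ a + N < φ b + N
    omega
  · refine hnorm.comp ?_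
    exact tendsto_atTop_mono (fun k => Nat.le_add_right (φ k) N) hφ.tendsto_atTop
  · exact hlim

end Pool.WS
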