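import Mathlib
import Pool.Agent.Work.MP_841263_ws.Interface

/-!
# Block SGN: sign coherence of the real roots of a block
-/

open CategoryTheory CategoryTheory.Limits CategoryTheory.Pretriangulated
open scoped ZeroObject Topology RealInnerProductSpace
open Filter

set_option backward.isDefEq.respectTransparency false
set_option backward.defeqAttrib.useBackward true
set_option linter.unusedSectionVars false

namespace Pool.WS

open Pool.Stab

universe w v u

variable (C : Type u) [Category.{v} C] [Preadditive C] [HasZeroObject C] [HasShift C ℤ]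
  [∀ n : ℤ, (shiftFunctor C n).Additive] [Pretriangulated C] [IsTriangulated C] [Linear ℂ C]
  [∀ n : ℤ, (shiftFunctor C n).Linear ℂ]

lemma SGN_sum_nonpos (s : Multiset ℤ) (h : ∀ x ∈ s, x ≤ 0) : s.sum ≤ 0 := by
  induction s using Multiset.induction_on with
  | empty => simp
  | cons a s ih =>
    rw [Multiset.sum_cons]
    have h1 := h a (Multiset.mem_cons_self a s)
    have h2 := ih (fun x hx => h x (Multiset.mem_cons_of_mem hx))
    linarith

lemma SGN_form_sum_right {K : Type*} [AddCommGroup K] (B : K →+ K →+ ℤ) (t : Multiset K) (x : K) :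
    B x t.sum = (t.map (fun y => B x y)).sum := by
  induction t using Multiset.induction_on with
  | empty => simp
  | cons a s ih => simp [ih]

lemma SGN_form_nonpos {K : Type*} [AddCommGroup K] {B : K →+ K →+ ℤ} {R : Set K}
    (hR : OffDiag B R) (s t : Multiset K) (hs : ∀ x ∈ s, x ∈ R) (ht : ∀ x ∈ t, x ∈ R)
    (hd : ∀ x ∈ s, x ∉ t) : B s.sum t.sum ≤ 0 := by
  rw [form_sum_left]
  refine SGN_sum_nonpos _ ?_
  intro r hr
  obtain ⟨x, hx, rfl⟩ := Multiset.mem_map.1 hr
  rw [SGN_form_sum_right]
  refine SGN_sum_nonpos _ ?_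
  intro q hq
  obtain ⟨y, hy, rfl⟩ := Multiset.mem_map.1 hq
  refine hR x (hs x hx) y (ht y hy) ?_
  rintro rfl
  exact hd x hx hy

lemma SGN_disj {K : Type*} [AddCommGroup K] {R : Set K} (s t : Multiset K)
    (hs : ∀ x ∈ s, x ∈ R) (ht : ∀ x ∈ t, x ∈ R) :
    ∃ s' t' : Multiset K, (∀ x ∈ s', x ∈ R) ∧ (∀ x ∈ t', x ∈ R) ∧ (∀ x ∈ s', x ∉ t') ∧
      s'.sum - t'.sum = s.sum - t.sum := by
  classical
  refine ⟨s - s ∩ t, t - s ∩ t, ?_, ?_, ?_, ?_⟩
  · intro x hx
    exact hs x (Multiset.mem_of_le (Multiset.sub_le_self _ _) hx)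
  · intro x hx
    exact ht x (Multiset.mem_of_le (Multiset.sub_le_self _ _) hx)
  · intro x hx hx'
    have h1 := Multiset.count_pos.2 hx
    have h2 := Multiset.count_pos.2 hx'
    rw [Multiset.count_sub, Multiset.count_inter] at h1 h2
    omega
  · have h1 : (s - s ∩ t).sum + (s ∩ t).sum = s.sum := by
      rw [← Multiset.sum_add, Multiset.sub_add_cancel Multiset.inter_le_left]
    have h2 : (t - s ∩ t).sum + (s ∩ t).sum = t.sum := by
      rw [← Multiset.sum_add, Multiset.sub_add_cancel Multiset.inter_le_right]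
    rw [← h1, ← h2]
    abel

variable {C} in
lemma SGN_obj {A : C → Prop} (hA : AbSub A) {G : C → Prop} (hG : ∀ S, G S → A S)
    (s : Multiset (K0 C)) (hs : ∀ x ∈ s, x ∈ {x | ∃ S, G S ∧ cls S = x}) :
    ∃ E, A E ∧ cls E = s.sum := by
  induction s using Multiset.induction_on with
  | empty => exact ⟨0, hA.zero_mem (isZero_zero C), by simp [cls_of_isZero (isZero_zero C)]⟩
  | cons a s ih =>
    obtain ⟨E, hE, hc⟩ := ih (fun x hx => hs x (Multiset.mem_cons_of_mem hx))
    obtain ⟨S, hS, hSa⟩ := hs a (Multiset.mem_cons_self a s)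
    exact ⟨S ⊞ E, hA.biprod_mem (hG S hS) hE, by rw [cls_biprod, hc, hSa]; simp⟩

theorem p_SGN : Stmt_SGN C := by
  classical
  intro hK n ρ hρ A im G h c hc hcc
  have hB := hρ.psd
  have hR := h.toLocalSetting.offDiag
  have hGA : ∀ S, G S → A S := fun S hS => (h.simple S hS).1
  -- every class is a difference
  have hdiff : ∃ s t : Multiset (K0 C), (∀ x ∈ s, x ∈ {x | ∃ S, G S ∧ cls S = x}) ∧
      (∀ x ∈ t, x ∈ {x | ∃ S, G S ∧ cls S = x}) ∧ c = s.sum - t.sum := by
    clear hcc
    unfold KW at hc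
    induction hc using AddSubgroup.closure_induction with
    | mem x hx =>
      obtain ⟨X, hX, rfl⟩ := hx
      obtain ⟨L, a1, b1, -⟩ := gen_multiset (h.gen X hX)
      refine ⟨L.map cls, 0, ?_, by simp, by rw [b1]; simp⟩
      intro x hx
      obtain ⟨H, hH, rfl⟩ := Multiset.mem_map.1 hx
      exact ⟨H, a1 H hH, rfl⟩
    | zero => exact ⟨0, 0, by simp, by simp, by simp⟩
    | add x y _ _ hx hy =>
      obtain ⟨s, t, h1, h2, rfl⟩ := hx
      obtain ⟨s', t', h1', h2', rfl⟩ := hy
      refine ⟨s + s', t + t', ?_, ?_, by rw [Multiset.sum_add, Multiset.sum_add]; abel⟩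
      · intro z hz
        rcases Multiset.mem_add.1 hz with hz | hz
        · exact h1 z hz
        · exact h1' z hz
      · intro z hz
        rcases Multiset.mem_add.1 hz with hz | hz
        · exact h2 z hz
        · exact h2' z hz
    | neg x _ hx =>
      obtain ⟨s, t, h1, h2, rfl⟩ := hx
      exact ⟨t, s, h2, h1, by abel⟩
  obtain ⟨s0, t0, hs0, ht0, hc0⟩ := hdiff
  obtain ⟨s, t, hs, ht, hd, hst⟩ := SGN_disj s0 t0 hs0 ht0
  have hcst : c = s.sum - t.sum := by rw [hc0, hst]
  have hab := SGN_form_nonpos hR s t hs ht hd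
  have hexp : eulerForm hK c c = eulerForm hK s.sum s.sum + eulerForm hK t.sum t.sum -
      2 * eulerForm hK s.sum t.sum := by
    rw [hcst]
    simp only [map_sub, AddMonoidHom.sub_apply]
    rw [hB.symm t.sum s.sum]
    ring
  have na := hB.nonneg s.sum
  have nb := hB.nonneg t.sum
  obtain ⟨p, hp⟩ := hρ.even s.sum
  obtain ⟨q, hq⟩ := hρ.even t.sum
  by_cases hb0 : eulerForm hK t.sum t.sum = 0
  · by_cases ht0 : t = 0
    · left
      obtain ⟨E, hE, hEc⟩ := SGN_obj h.toAbSub hGA s hs
      exact ⟨E, hE, by rw [hEc, hcst, ht0]; simp⟩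
    · exfalso
      have hfull := full_support hR h.conn ht ht0 (hB.mem_radical_of_self hb0)
      have hs0' : s = 0 := by
        rw [Multiset.eq_zero_iff_forall_notMem]
        intro x hx
        exact hd x hx (hfull x (hs x hx))
      rw [hs0'] at hexp
      simp only [Multiset.sum_zero, map_zero, AddMonoidHom.zero_apply] at hexp
      omega
  · by_cases ha0 : eulerForm hK s.sum s.sum = 0
    · by_cases hs0' : s = 0
      · right
        obtain ⟨E, hE, hEc⟩ := SGN_obj h.toAbSub hGA t ht
        exact ⟨E, hE, by rw [hEc, hcst, hs0']; simp⟩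
      · exfalso
        have hfull := full_support hR h.conn hs hs0' (hB.mem_radical_of_self ha0)
        have ht0' : t = 0 := by
          rw [Multiset.eq_zero_iff_forall_notMem]
          intro x hx
          exact hd x (hfull x (ht x hx)) hx
        rw [ht0'] at hb0
        simp at hb0
    · exfalso
      omega

end Pool.WS
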