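import Mathlib
import Pool.Agent.Work.MP_841263_ws.Interface

/-! # Weak separation, block SIG: the simple objects of a block -/

open CategoryTheory CategoryTheory.Limits CategoryTheory.Pretriangulated
open scoped ZeroObject Topology RealInnerProductSpace
open Filter

set_option backward.isDefEq.respectTransparency false
set_option backward.defeqAttrib.useBackward true
set_option linter.unusedSectionVars false

namespace Pool.WS

open Pool.Stab

universe w v u

/-- SIG. -/
theorem p_SIG {C : Type u} [Category.{v} C] [Preadditive C] [HasZeroObject C] [HasShift C ℤ]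
    [∀ n : ℤ, (shiftFunctor C n).Additive] [Pretriangulated C] [IsTriangulated C] [Linear ℂ C]
    [∀ n : ℤ, (shiftFunctor C n).Linear ℂ] : Stmt_SIG C := by
  intro hK A im G h S hS
  by_contra hcon
  push Not at hcon
  have h1 : ∀ X : C, Gen G X → ∀ f : S ⟶ X, f = 0 := by
    intro X hX
    induction hX with
    | zero hX => intro f; exact hX.eq_of_tgt f 0
    | of hX =>
      intro f
      by_contra hf
      have := h.toAbSub.schur hS (h.simple _ hX) f hf
      exact (hcon _ hX).false (asIso f)
    | ext hT _ _ h1 h2 =>
      intro f
      obtain ⟨a, ha⟩ := Triangle.coyoneda_exact₂ _ hT f (h2 _)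
      rw [ha]
      have := h1 a
      rw [this, zero_comp]
  have h2 := h1 S (h.gen S hS.1) (𝟙 S)
  exact hS.2.1 ((IsZero.iff_id_eq_zero _).2 h2)

end Pool.WS
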