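import Pool.Agent.Work.MP_841263_ws.Interface

/-!
# Weak separation in an affine block, block TNG: tangency

Moving `u` in the direction of the quotients of `M` on which the functional is minimal keeps the
condition `FB` for an object `L` with `Hom(M, L) = 0`.
-/

open CategoryTheory CategoryTheory.Limits CategoryTheory.Pretriangulated
open scoped ZeroObject Topology RealInnerProductSpace
open Filter

set_option backward.isDefEq.respectTransparency false
set_option backward.defeqAttrib.useBackward true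
set_option linter.unusedSectionVars false

namespace Pool.WS

open Pool.Stab

universe w v u

variable {C : Type u} [Category.{v} C] [Preadditive C] [HasZeroObject C] [HasShift C ℤ]
  [∀ n : ℤ, (shiftFunctor C n).Additive] [Pretriangulated C] [IsTriangulated C] [Linear ℂ C]
  [∀ n : ℤ, (shiftFunctor C n).Linear ℂ]

/-- The value of the functional `fn`. -/
lemma TNG_fn {K : Type u} [AddCommGroup K] {n : ℕ} (ρ : K →+ EU n) (p : EU n) (x : K) :
    fn ρ p x = ⟪p, ρ x⟫ := rfl

/-- For `N` a quotient of `M`, `B` a subobject of `L`, with `Hom(M, L) = 0` and `Hom(B, N) = 0`, the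
form of `N` and `B` is not positive. -/
lemma TNG_form (hK : IsK3 C) {A : C → Prop} (hA : AbSub A) {L M K N B Q : C} {k : K ⟶ M}
    {p : M ⟶ N} (hN : SES A k p) {f : B ⟶ L} {g : L ⟶ Q} (hB : SES A f g)
    (hML : ∀ a : M ⟶ L, a = 0) (hBN : ∀ a : B ⟶ N, a = 0) :
    eulerForm hK (cls N) (cls B) ≤ 0 := by
  have hNB : ∀ a : N ⟶ B, a = 0 := by
    intro a
    have h1 : (p ≫ a) ≫ f = 0 := hML _
    have h2 : p ≫ a = 0 := hB.mono hA hN.2.1 _ h1
    exact hN.epi hA hB.1 a h2
  rw [hA.eulerChar hK hN.2.2.1 hB.1, finrank_of_forall_zero hNB, finrank_of_forall_zero hBN]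
  have : (0 : ℤ) ≤ (Module.finrank ℂ (N ⟶ B⟦(1 : ℤ)⟧) : ℤ) := by positivity
  push_cast
  linarith

/-- TNG. -/
theorem p_TNG (hHTF : Stmt_HTF C) (hMXS : Stmt_MXS C) (hMXQ : Stmt_MXQ C) : Stmt_TNG C := by
  intro hK n ρ hG A im hA L M hL hM hML F hF u hu w hw ε hε hmin
  by_contra hcon
  obtain ⟨B, Q, f, g, hS, hTS, hpos, -⟩ :=
    hMXS A im hA (fn ρ (u - ε • ∑ g ∈ F, w g • g)) L hL hcon
  have hle : ⟪u, ρ (cls B)⟫ ≤ (0 : ℝ) := hu.2 (cls B) ⟨B, Q, f, g, hS, rfl⟩
  have hterm : ∀ a ∈ F, 0 ≤ w a * ⟪a, ρ (cls B)⟫ := by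
    intro a ha
    by_cases hw0 : w a = 0
    · rw [hw0, zero_mul]
    · obtain ⟨c, ⟨K, N, k, p, hN, hcN⟩, hac⟩ := (hF a).1 ha
      have hFB : FB A (fn ρ (u - ε • ∑ g ∈ F, w g • g)) N := by
        refine hMXQ A hA.toAbSub _ K M N k p hN ?_
        intro c' hc'
        have h1 := hmin a ha hw0 (- ρ c') ((hF _).2 ⟨c', hc', rfl⟩)
        rw [hac, inner_neg_right, inner_neg_right] at h1
        rw [TNG_fn, TNG_fn, hcN]
        linarith
      have hBN : ∀ b : B ⟶ N, b = 0 := hHTF A hA.toAbSub _ B N hTS hFB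
      have hform := TNG_form hK hA.toAbSub hN hS hML hBN
      have h2 : ⟪ρ c, ρ (cls B)⟫ ≤ (0 : ℝ) := by
        rw [hG.gram, ← hcN]
        exact_mod_cast hform
      apply mul_nonneg (hw a ha)
      rw [hac, inner_neg_left]
      linarith
  have hsum : 0 ≤ ⟪∑ g ∈ F, w g • g, ρ (cls B)⟫ := by
    rw [sum_inner]
    refine Finset.sum_nonneg ?_
    intro a ha
    rw [real_inner_smul_left]
    exact hterm a ha
  have h3 : 0 < ⟪u - ε • ∑ g ∈ F, w g • g, ρ (cls B)⟫ := hpos
  rw [inner_sub_left, real_inner_smul_left] at h3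
  have h4 := mul_nonneg hε hsum
  linarith

end Pool.WS
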