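import Mathlib
import Pool.Agent.Work.MP_841263_ws.Interface

/-!
# Weak separation in an affine block, block TPR: torsion pair from a torsion class
-/

open CategoryTheory CategoryTheory.Limits CategoryTheory.Pretriangulated
open scoped ZeroObject Topology RealInnerProductSpace
open Filter

set_option backward.isDefEq.respectTransparency false
set_option backward.defeqAttrib.useBackward true
set_option linter.unusedSectionVars false

namespace Pool.WS

open Pool.Stab

universe w v u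

variable (C : Type u) [Category.{v} C] [Preadditive C] [HasZeroObject C] [HasShift C ℤ]
  [∀ n : ℤ, (shiftFunctor C n).Additive] [Pretriangulated C] [IsTriangulated C] [Linear ℂ C]
  [∀ n : ℤ, (shiftFunctor C n).Linear ℂ]

variable {C} in
/-- The decomposition of an object with respect to a class closed under quotients and
extensions. -/
lemma TPR_dec {W : C → Prop} {im : K0 C →+ ℝ} (hW : FinCat W im) {T : C → Prop}
    (h0 : ∀ E, IsZero E → T E)
    (hq : ∀ (X Y Z : C) (f : X ⟶ Y) (g : Y ⟶ Z), SES W f g → T Y → T Z)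
    (he : ∀ (X Y Z : C) (f : X ⟶ Y) (g : Y ⟶ Z), SES W f g → T X → T Z → T Y)
    (hTW : ∀ E, T E → W E) :
    ∀ E, W E → ∃ (t f : C) (i : t ⟶ E) (p : E ⟶ f), SES W i p ∧ T t ∧
      ∀ X, T X → ∀ a : X ⟶ f, a = 0 := by
  refine hW.induction ?_
  intro E hE _ h2
  by_cases hF : ∀ X, T X → ∀ a : X ⟶ E, a = 0
  · exact ⟨0, E, 0, 𝟙 E, hW.ses_zero hE, h0 _ (isZero_zero C), hF⟩
  · push Not at hF
    obtain ⟨X, hX, a, ha⟩ := hF
    obtain ⟨K, I, Q, k, p, i, q, s1, s2, hpi⟩ := hW.kiq (hTW X hX) hE a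
    have hI : T I := hq _ _ _ _ _ s1 hX
    have hI0 : ¬ IsZero I := by
      intro hz
      apply ha
      rw [← hpi, hz.eq_of_tgt p 0, zero_comp]
    obtain ⟨t, f, j, r, s3, ht, hf⟩ := h2 _ _ _ _ s2 hI0
    obtain ⟨F, i', m, n, s4, s5⟩ := s2.comp' hW.toAbSub s3
    exact ⟨F, f, i', _, s4, he _ _ _ _ _ s5 hI ht, hf⟩

theorem p_TPR : Stmt_TPR C := by
  intro W im hW T hTW h0 hq he
  constructor
  · intro E
    constructor
    · intro hE
      exact ⟨hTW E hE, fun Y hY f => hY.2 E hE f⟩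
    · rintro ⟨hE, hEF⟩
      obtain ⟨t, f, i, p, s, ht, hf⟩ := TPR_dec hW h0 hq he hTW E hE
      have hp : p = 0 := hEF f ⟨s.2.2.1, hf⟩ p
      exact he _ _ _ _ _ s ht (h0 _ (isZero_of_SES_right hW.toAbSub s hp))
  · intro Y
    exact Iff.rfl

end Pool.WS
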