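import Mathlib
import Pool.Agent.Work.MP_841263_ws.Interface

open CategoryTheory CategoryTheory.Limits CategoryTheory.Pretriangulated
open scoped ZeroObject Topology RealInnerProductSpace
open Filter

set_option backward.isDefEq.respectTransparency false
set_option backward.defeqAttrib.useBackward true
set_option linter.unusedSectionVars false

namespace Pool.WS

open Pool.Stab

universe w v u

variable (C : Type u) [Category.{v} C] [Preadditive C] [HasZeroObject C] [HasShift C ℤ]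
  [∀ n : ℤ, (shiftFunctor C n).Additive] [Pretriangulated C] [IsTriangulated C] [Linear ℂ C]
  [∀ n : ℤ, (shiftFunctor C n).Linear ℂ]

theorem p_UPE : Stmt_UPE C := by
  intro W A im hW hA hU T F hTF hTA N hN hNA
  obtain ⟨t, f, a, b, c, hT, hWt, hAt, hWf, hAf⟩ := hU.dec N ((hTF.2 N).1 hN).1
  have ht0 : ¬ IsZero t := by
    intro h0
    have := iso_of_isZero₁ hT h0
    exact hNA (hA.toAbSub.iso_mem ((shiftFunctor C (1 : ℤ)).mapIso (asIso b).symm) hAf)
  obtain ⟨S, Q, s, q, hsq, hS⟩ := hA.exists_simple_sub t hAt ht0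
  have hAS : A S := hsq.1
  obtain ⟨F₁, T₁, p, r, k, hT₁, hWF₁, hAF₁, hWT₁, hAT₁⟩ := hU.obj S hAS
  have hses : SES A p r := ⟨hAF₁, hAS, hAT₁, k, hT₁⟩
  have hp : p = 0 := by
    apply hsq.mono hA.toAbSub hAF₁
    exact hW.hom_pos hWF₁ hWt (p ≫ s)
  have hz := isZero_of_SES_left hA.toAbSub hses hp
  have := iso_of_isZero₁ hT₁ hz
  have hWS : W S := hW.iso_mem (asIso r).symm hWT₁
  refine ⟨S, hS, (hTF.2 S).2 ⟨hWS, ?_⟩⟩
  intro E hE g
  apply hsq.mono hA.toAbSub (hTA E hE)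
  have h1 : (g ≫ s) ≫ a = 0 := ((hTF.2 N).1 hN).2 E hE _
  obtain ⟨a', c', hinv⟩ := exists_invrot hT
  obtain ⟨d, hd⟩ := Triangle.coyoneda_exact₂ _ hinv (g ≫ s) h1
  rw [hd, hW.hom_neg ((hTF.1 E).1 hE).1 hWf (by norm_num) d, zero_comp]

end Pool.WS
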