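import Pool.Agent.Work.MP_841263_ws.Interface

/-! Block UPS (helper94). -/

open CategoryTheory CategoryTheory.Limits CategoryTheory.Pretriangulated
open scoped ZeroObject Topology RealInnerProductSpace
open Filter

set_option backward.isDefEq.respectTransparency false
set_option backward.defeqAttrib.useBackward true
set_option linter.unusedSectionVars false

namespace Pool.WS

open Pool.Stab

universe w v u

section

variable {C : Type u} [Category.{v} C] [Preadditive C] [HasZeroObject C] [HasShift C ℤ]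
  [∀ n : ℤ, (shiftFunctor C n).Additive] [Pretriangulated C] [IsTriangulated C] [Linear ℂ C]
  [∀ n : ℤ, (shiftFunctor C n).Linear ℂ]

theorem UPS_F {A A' : C → Prop} {S : C} (hD : Up A S A') {F : C} (hF : A F)
    (h : ∀ a : F ⟶ S, a = 0) : A' F := by
  rw [hD]
  have hz : IsZero ((0 : C)⟦(1 : ℤ)⟧) := (isZero_shift_iff _ _).2 (isZero_zero C)
  refine ⟨0, F, 0, 𝟙 F, 0, ?_, hF, h, Gen.zero (isZero_zero C)⟩
  refine isomorphic_distinguished _ (contractible_distinguished₁ F) _ ?_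
  refine Triangle.isoMk _ _ (hz.iso (isZero_zero C)) (Iso.refl _) (Iso.refl _) ?_
    (by simp) ?_
  · exact hz.eq_of_src _ _
  · exact ((shiftFunctor C (1 : ℤ)).map_isZero (isZero_zero C)).eq_of_tgt _ _

theorem UPS_T {A A' : C → Prop} (hA : AbSub A) {S : C} (hD : Up A S A') {s : C}
    (hs : Gen (fun Y => Nonempty (Y ≅ S)) s) : A' (s⟦(1 : ℤ)⟧) := by
  rw [hD]
  exact ⟨s, 0, 𝟙 _, 0, 0, contractible_distinguished _, hA.zero_mem (isZero_zero C),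
    fun a => (isZero_zero C).eq_of_src _ _, hs⟩

theorem UPS_gen {W : C → Prop} (hW : AbSub W) {S : C} (hS : W S) {s : C}
    (hs : Gen (fun Y => Nonempty (Y ≅ S)) s) : W s := by
  induction hs with
  | zero h => exact hW.zero_mem h
  | of h =>
    obtain ⟨e⟩ := h
    exact hW.iso_mem e.symm hS
  | ext hT _ _ h1 h2 => exact hW.ext_mem hT h1 h2

theorem UPS_first_iso {X X' Y Z : C} {f : X ⟶ Y} {g : Y ⟶ Z} {h : Z ⟶ X⟦(1 : ℤ)⟧}
    (hT : Triangle.mk f g h ∈ distTriang C) (e : X ≅ X') :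
    Triangle.mk (e.inv ≫ f) g (h ≫ e.hom⟦(1 : ℤ)⟧') ∈ distTriang C := by
  refine isomorphic_distinguished _ hT _ ?_
  exact Triangle.isoMk _ _ e.symm (Iso.refl _) (Iso.refl _) (by simp) (by simp)
    (by simp [← Functor.map_comp])

end

section

variable (C : Type u) [Category.{v} C] [Preadditive C] [HasZeroObject C] [HasShift C ℤ]
  [∀ n : ℤ, (shiftFunctor C n).Additive] [Pretriangulated C] [IsTriangulated C] [Linear ℂ C]
  [∀ n : ℤ, (shiftFunctor C n).Linear ℂ]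

/-- Block UPS. -/
theorem p_UPS : Stmt_UPS C := by
  intro W A A' im hW hA hA' hL S hS hWS hD
  have hpos : ∀ F : C, W F → ∀ a : F⟦(1 : ℤ)⟧ ⟶ S, a = 0 := fun F hF a => hW.hom_pos hF hWS a
  refine ⟨?_, ?_⟩
  · intro X hX
    obtain ⟨s, f0, i, p, d, hT1, hf0, hf0S, hs⟩ := (hD X).1 hX
    obtain ⟨F, T, j, q, e, hT2, hWF, hAF, hWT, hAT⟩ := hL.obj f0 hf0
    have hses : SES A j q := ⟨hAF, hf0, hAT, e, hT2⟩
    have hTS : ∀ a : T ⟶ S, a = 0 := fun a => hses.epi hA.toAbSub hS.1 a (hf0S _)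
    have hT' : A' T := UPS_F hD hAT hTS
    have hF' : A' (F⟦(1 : ℤ)⟧) := UPS_F hD hAF (hpos F hWF)
    have hs' : A' (s⟦(1 : ℤ)⟧) := UPS_T hA.toAbSub hD hs
    obtain ⟨Y, y, z, hT3⟩ := distinguished_cocone_triangle₁ (p ≫ q)
    obtain ⟨m, n, r, hT4, -⟩ := exists_octa_cocone hT1 hT2 hT3
    have hY' : A' Y := hA'.ext_mem hT4 hs' hF'
    have hWs : W s := UPS_gen hW hWS hs
    have eF : (F⟦(1 : ℤ)⟧)⟦(-1 : ℤ)⟧ ≅ F := shiftShiftNeg F 1
    have es : (s⟦(1 : ℤ)⟧)⟦(-1 : ℤ)⟧ ≅ s := shiftShiftNeg s 1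
    have hY1 : W (Y⟦(-1 : ℤ)⟧) := hW.ext_mem (Triangle.shift_distinguished _ hT4 (-1))
      (hW.iso_mem es.symm hWs) (hW.iso_mem eF.symm hWF)
    have eY : Y ≅ (Y⟦(-1 : ℤ)⟧)⟦(1 : ℤ)⟧ := (shiftNegShift Y 1).symm
    exact ⟨Y⟦(-1 : ℤ)⟧, T, _, _, _, UPS_first_iso hT3 eY, hY1, hA'.iso_mem eY hY', hWT, hT'⟩
  · intro M hM
    obtain ⟨T, F, i, p, d, hT1, hWT, hAT, hWF, hAF⟩ := hL.dec M hM
    obtain ⟨T', s, a, q, hses, hs, hTS', -⟩ := hA.isotypic hS T hAT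
    have hWs : W s := UPS_gen hW hWS hs
    have hAT' : A T' := hses.1
    obtain ⟨F1, T1, j, g, e, hT2, hWF1, hAF1, hWT1, hAT1⟩ := hL.obj T' hAT'
    have hj : j = 0 := hses.mono hA.toAbSub hAF1 j (hW.hom_pos hWF1 hWT _)
    have hz : IsZero (F1⟦(1 : ℤ)⟧) := isZero_of_SES_left hA.toAbSub
      (⟨hAF1, hAT', hAT1, e, hT2⟩ : SES A j g) hj
    have hiso : IsIso g := iso_of_isZero₁ hT2 hz
    have hWT' : W T' := hW.iso_mem (asIso g).symm hWT1
    have hT'' : A' T' := UPS_F hD hAT' hTS'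
    obtain ⟨-, -, -, d2, hT4⟩ := hses
    obtain ⟨F', i3, d3, hT3⟩ := distinguished_cocone_triangle (a ≫ i)
    obtain ⟨m, n, r, hT5, -⟩ := exists_octa hT4 hT1 hT3
    have hWF' : W F' := hW.ext_mem hT5 hWs hWF
    have hF'' : A' (F⟦(1 : ℤ)⟧) := UPS_F hD hAF (hpos F hWF)
    have hs' : A' (s⟦(1 : ℤ)⟧) := UPS_T hA.toAbSub hD hs
    have hAF' : A' (F'⟦(1 : ℤ)⟧) := hA'.ext_mem (Triangle.shift_distinguished _ hT5 1)
      hs' hF''
    exact ⟨T', F', _, _, _, hT3, hWT', hT'', hWF', hAF'⟩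

end

end Pool.WS
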