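import Mathlib
import Pool.Agent.Work.MP_841263_ws.Interface

/-!
# Block UTM: an infinite raising walk gives a limit direction
-/

open CategoryTheory CategoryTheory.Limits CategoryTheory.Pretriangulated
open scoped ZeroObject Topology RealInnerProductSpace
open Filter

set_option backward.isDefEq.respectTransparency false
set_option backward.defeqAttrib.useBackward true
set_option linter.unusedSectionVars false

namespace Pool.WS

open Pool.Stab

universe w v u

section UTMaux

variable {C : Type u} [Category.{v} C] [Preadditive C] [HasZeroObject C] [HasShift C ℤ]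
  [∀ n : ℤ, (shiftFunctor C n).Additive] [Pretriangulated C] [IsTriangulated C] [Linear ℂ C]
  [∀ n : ℤ, (shiftFunctor C n).Linear ℂ]

/-- The triangle `Z → X → X` with `Z = 0`. -/
lemma UTM_tri {X Z : C} (hZ : IsZero Z) :
    Triangle.mk (0 : Z ⟶ X) (𝟙 X) (0 : X ⟶ Z⟦(1 : ℤ)⟧) ∈ distTriang C := by
  refine isomorphic_distinguished _ (contractible_distinguished₁ X) _ ?_
  exact Triangle.isoMk _ _ hZ.isoZero (Iso.refl _) (Iso.refl _)
    (by apply hZ.eq_of_src) (by simp)
    (by apply ((isZero_shift_iff (X := (0 : C)) (n := (1 : ℤ))).2 (isZero_zero C)).eq_of_tgt)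

/-- The triangle `X → X → Z` with `Z = 0`. -/
lemma UTM_tri' {X Z : C} (hZ : IsZero Z) :
    Triangle.mk (𝟙 X) (0 : X ⟶ Z) (0 : Z ⟶ X⟦(1 : ℤ)⟧) ∈ distTriang C := by
  refine isomorphic_distinguished _ (contractible_distinguished X) _ ?_
  exact Triangle.isoMk _ _ (Iso.refl _) (Iso.refl _) hZ.isoZero (by simp)
    (by apply (isZero_zero C).eq_of_tgt) (by apply hZ.eq_of_src)

/-- Objects of `A` without maps to `S` stay in the raising. -/
lemma UTM_stay {A A' : C → Prop} {S : C} (hD : Up A S A') {X : C} (hX : A X)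
    (h : ∀ a : X ⟶ S, a = 0) : A' X := by
  rw [hD X]
  exact ⟨0, X, 0, 𝟙 X, 0, UTM_tri ((isZero_shift_iff _ _).2 (isZero_zero C)), hX, h,
    Gen.zero (isZero_zero C)⟩

/-- `S[1]` is in the raising at `S`. -/
lemma UTM_new {A A' : C → Prop} {S : C} (hD : Up A S A') (hA : AbSub A) :
    A' (S⟦(1 : ℤ)⟧) := by
  rw [hD]
  exact ⟨S, 0, 𝟙 _, 0, 0, UTM_tri' (isZero_zero C), hA.zero_mem (isZero_zero C),
    fun a => (isZero_zero C).eq_of_src _ _, Gen.of ⟨Iso.refl S⟩⟩

/-- No maps `X[1] ⟶ Y` in an abelian subcategory. -/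
lemma UTM_hom {W : C → Prop} (hW : AbSub W) {X Y : C} (hX : W X) (hY : W Y)
    (f : X⟦(1 : ℤ)⟧ ⟶ Y) : f = 0 := by
  have h := hom_shift_zero (X := X) (Y := Y) (a := 1) (b := 0) (c := -1) (by norm_num)
    (hW.hom_neg hX hY (by norm_num)) (f ≫ ((shiftFunctorZero C ℤ).app Y).inv)
  rw [← cancel_mono (((shiftFunctorZero C ℤ).app Y).inv), h, zero_comp]

lemma UTM_cls_neg (S : C) : cls (S⟦(1 : ℤ)⟧) = - cls S := by
  rw [cls_shift]
  simp

lemma UTM_cls_mem {A : C → Prop} {X : C} (h : A X) : cls X ∈ KW A :=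
  AddSubgroup.subset_closure ⟨X, h, rfl⟩

lemma UTM_vec_mem {n : ℕ} {A : C → Prop} {ρ : K0 C →+ EU n} {X : C} (h : A X) :
    ρ (cls X) ∈ EW A ρ := Submodule.subset_span ⟨X, h, rfl⟩

end UTMaux

section Category

variable (C : Type u) [Category.{v} C] [Preadditive C] [HasZeroObject C] [HasShift C ℤ]
  [∀ n : ℤ, (shiftFunctor C n).Additive] [Pretriangulated C] [IsTriangulated C] [Linear ℂ C]
  [∀ n : ℤ, (shiftFunctor C n).Linear ℂ]

theorem p_UTM : Stmt_SEQ → Stmt_DSC C → Stmt_UTM.{w} C := by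
  intro hSEQ hDSC hK n ρ hgram ι A im G Lo Hi hM i S T F hTF hG hFS hHi
  have hW : AbSub (A (i 0)) := (hM.block (i 0)).toLocalSetting.toFinCat.toAbSub
  have hSW : ∀ k, A (i 0) (S k) := fun k => ((hTF.2 (S k)).1 (hFS k)).1
  have hdown : ∀ k, Up (A (i k)) (S k) (A (i (k + 1))) := fun k =>
    hM.hi _ _ _ (hG k) (hHi k)
  -- the vectors
  set y : ℕ → EU n := fun k => ∑ m ∈ Finset.range k, im (i m) (cls (S m)) • ρ (cls (S m))
    with hy
  have hysucc : ∀ k, y (k + 1) = y k + im (i k) (cls (S k)) • ρ (cls (S k)) := by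
    intro k
    simp only [hy, Finset.sum_range_succ]
  have hy0 : y 0 = 0 := by simp [hy]
  have hyE : ∀ k, y k ∈ EW (A (i 0)) ρ := by
    intro k
    exact Submodule.sum_mem _ (fun m _ => Submodule.smul_mem _ _ (UTM_vec_mem (hSW m)))
  have him : ∀ k x, im (i k) x = im (i 0) x - ⟪y k, ρ x⟫ := by
    intro k
    induction k with
    | zero => intro x; rw [hy0, inner_zero_left, sub_zero]
    | succ k ih =>
      intro x
      have hinn : ⟪ρ (cls (S k)), ρ x⟫ = (eulerForm hK x (cls (S k)) : ℝ) := by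
        rw [real_inner_comm]
        exact hgram.gram x (cls (S k))
      rw [hM.hi_im _ _ _ (hG k) (hHi k) x, ih x, hysucc, inner_add_left, real_inner_smul_left,
        hinn]
      ring
  have hnorm : ∀ k, eulerForm hK (cls (S k)) (cls (S k)) = 2 := by
    intro k
    have hb := (hM.block (i k)).toLocalSetting
    exact hb.toAbSub.norm_of_rigid hK (hb.simple _ (hG k)) (hb.rigid _ (hG k))
  have hroot : ∀ k, ∀ c ∈ KW (A (i 0)), eulerForm hK c c = 2 →
      ∃ c' ∈ KW (A (i 0)), eulerForm hK c' c' = 2 ∧ im (i k) c = im (i 0) c' := by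
    intro k
    induction k with
    | zero => intro c hc hc2; exact ⟨c, hc, hc2, rfl⟩
    | succ k ih =>
      intro c hc hc2
      set a : ℤ := eulerForm hK c (cls (S k)) with ha
      have hsym : eulerForm hK (cls (S k)) c = a := hgram.psd.symm _ _
      obtain ⟨c', h1, h2, h3⟩ := ih (c - a • cls (S k))
        (AddSubgroup.sub_mem _ hc (AddSubgroup.zsmul_mem _ (UTM_cls_mem (hSW k)) _)) (by
          simp only [map_sub, map_zsmul, AddMonoidHom.sub_apply, AddMonoidHom.coe_smul,
            Pi.smul_apply, smul_eq_mul]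
          rw [hc2, hnorm k, hsym, ← ha]
          ring)
      refine ⟨c', h1, h2, ?_⟩
      rw [← h3, hM.hi_im _ _ _ (hG k) (hHi k) c, map_sub, map_zsmul, ← ha, zsmul_eq_mul]
  have hfin : ∀ r : ℝ, {z | z ∈ Set.range y ∧ ‖z‖ ≤ r}.Finite := by
    intro r
    refine (hDSC hK n ρ hgram _ _ _ (hM.block (i 0)) r).subset ?_
    rintro _ ⟨⟨k, rfl⟩, hk⟩
    refine ⟨hyE k, hk, ?_⟩
    intro c hc hc2
    obtain ⟨c', h1, h2, h3⟩ := hroot k c hc hc2
    exact ⟨c', h1, h2, by rw [← h3, him k c]⟩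
  -- `S_k[1]` is in `A_j` for `k < j`
  have hneg : ∀ k j, k < j → A (i j) ((S k)⟦(1 : ℤ)⟧) := by
    intro k j hkj
    obtain ⟨d, rfl⟩ := Nat.exists_eq_add_of_le (Nat.succ_le_of_lt hkj)
    induction d with
    | zero => exact UTM_new (hdown k) (hM.block (i k)).toLocalSetting.toFinCat.toAbSub
    | succ d ih =>
      exact UTM_stay (hdown (k.succ + d)) (ih (by omega))
        (fun a => UTM_hom hW (hSW k) (hSW _) a)
  have hlt : ∀ k j, k < j → y k ≠ y j := by
    intro k j hkj he
    have hbk := (hM.block (i k)).toLocalSetting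
    have hbj := (hM.block (i j)).toLocalSetting
    have hSk : ¬ IsZero (S k) := (hbk.simple _ (hG k)).2.1
    have h1 := hbk.pos _ (hbk.simple _ (hG k)).1 hSk
    have h2 := hbj.pos _ (hneg k j hkj) (fun h => hSk ((isZero_shift_iff _ _).1 h))
    rw [UTM_cls_neg, map_neg, him j] at h2
    rw [him k, he] at h1
    linarith
  have hinj : Function.Injective y := by
    intro k j he
    by_contra hne
    rcases Nat.lt_or_gt_of_ne hne with h | h
    · exact hlt k j h he
    · exact hlt j k h he.symm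
  obtain ⟨x, φ, hx1, -, hinf, hlim⟩ := hSEQ n y hinj hfin
  refine ⟨-x, ?_, ?_, ?_⟩
  · have hcl : IsClosed ((EW (A (i 0)) ρ : Submodule ℝ (EU n)) : Set (EU n)) :=
      Submodule.closed_of_finiteDimensional _
    exact Submodule.neg_mem _ (hcl.mem_of_tendsto hlim (Eventually.of_forall
      (fun k => Submodule.smul_mem _ _ (hyE (φ k)))))
  · intro h0
    rw [neg_eq_zero] at h0
    rw [h0, norm_zero] at hx1
    exact zero_ne_one hx1
  · intro E hE
    have hEA : ∀ k, A (i k) E := by
      intro k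
      induction k with
      | zero => exact ((hTF.1 E).1 hE).1
      | succ k ih => exact UTM_stay (hdown k) ih (((hTF.1 E).1 hE).2 (S k) (hFS k))
    have hle : ∀ k, ⟪y k, ρ (cls E)⟫ ≤ im (i 0) (cls E) := by
      intro k
      have h1 := (hM.block (i k)).toLocalSetting.toFinCat.nonneg (hEA k)
      rw [him k] at h1
      linarith
    have h1 : Tendsto (fun k => ⟪‖y (φ k)‖⁻¹ • y (φ k), ρ (cls E)⟫) atTop
        (𝓝 ⟪x, ρ (cls E)⟫) := hlim.inner tendsto_const_nhds
    have h2 : Tendsto (fun k => ‖y (φ k)‖⁻¹ * im (i 0) (cls E)) atTop (𝓝 0) := by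
      have := (tendsto_inv_atTop_zero.comp hinf).mul_const (im (i 0) (cls E))
      rw [zero_mul] at this
      exact this
    have h3 : ⟪x, ρ (cls E)⟫ ≤ (0 : ℝ) := by
      refine le_of_tendsto_of_tendsto' h1 h2 ?_
      intro k
      rw [real_inner_smul_left]
      exact mul_le_mul_of_nonneg_left (hle (φ k)) (by positivity)
    rw [inner_neg_left]
    linarith

end Category

end Pool.WS
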