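import Mathlib
import Pool.Agent.Work.MP_841263_ws.Interface

/-!
# Block WSF: weak separation (helper32)
-/

open CategoryTheory CategoryTheory.Limits CategoryTheory.Pretriangulated
open scoped ZeroObject Topology RealInnerProductSpace
open Filter

set_option backward.isDefEq.respectTransparency false
set_option backward.defeqAttrib.useBackward true
set_option linter.unusedSectionVars false

namespace Pool.WS

open Pool.Stab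

universe w v u

variable (C : Type u) [Category.{v} C] [Preadditive C] [HasZeroObject C] [HasShift C ℤ]
  [∀ n : ℤ, (shiftFunctor C n).Additive] [Pretriangulated C] [IsTriangulated C] [Linear ℂ C]
  [∀ n : ℤ, (shiftFunctor C n).Linear ℂ]

theorem p_WSF : Stmt_WSM.{w} C → Stmt_WSP.{w} C → Stmt_WSZ C → Stmt_WSF.{w} C := by
  intro hWSM hWSP hWSZ hK n ρ hρ ι A im G Lo Hi hM i₀ L M hL hMA h0
  have hb := hM.block i₀
  have hab : AbSub (A i₀) := hb.toLocalSetting.toFinCat.toAbSub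
  have hFL : (fun Y => A i₀ Y ∧ ∀ E, (A i₀ E ∧ ∀ f : E ⟶ L, f = 0) → ∀ f : E ⟶ Y, f = 0) L :=
    ⟨hL, fun E hE f => hE.2 f⟩
  have hT : Tors (A i₀) (fun E => A i₀ E ∧ ∀ f : E ⟶ L, f = 0)
      (fun Y => A i₀ Y ∧ ∀ E, (A i₀ E ∧ ∀ f : E ⟶ L, f = 0) → ∀ f : E ⟶ Y, f = 0) := by
    refine ⟨fun E => ⟨fun hE => ⟨hE.1, fun Y hY f => hY.2 E hE f⟩, fun hE => ⟨hE.1, ?_⟩⟩,
      fun Y => Iff.rfl⟩
    exact fun f => hE.2 L hFL f
  rcases hWSM hK n ρ hρ ι A im G Lo Hi hM i₀ _ _ hT with ⟨j, hc, h1, h2⟩ | ⟨x, hx, hx0, hxF⟩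
  · exact Or.inl ⟨j, hc, h1 L hFL, h2 M ⟨hMA, h0⟩⟩
  rcases hWSP hK n ρ hρ ι A im G Lo Hi hM i₀ _ _ hT with ⟨j, hc, h1, h2⟩ | ⟨p, hp, hp0, hpT⟩
  · exact Or.inr (Or.inl ⟨j, hc, h1 M ⟨hMA, h0⟩, h2 L hFL⟩)
  refine Or.inr (Or.inr (hWSZ hK n ρ hρ (A i₀) (im i₀) (G i₀) hb L M hL hMA h0
    ⟨x, hx, hx0, hL, ?_⟩ ⟨p, hp, hp0, fun E hE hf => hpT E ⟨hE, hf⟩⟩))
  rintro c ⟨B, Q, f, g, hs, rfl⟩
  refine hxF B ⟨hs.1, fun E hE e => hs.mono hab hE.1 e (hE.2 _)⟩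

end Pool.WS
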