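import Pool.Agent.Work.MP_841263_ws.Interface

open CategoryTheory CategoryTheory.Limits CategoryTheory.Pretriangulated
open scoped ZeroObject Topology RealInnerProductSpace
open Filter

set_option backward.isDefEq.respectTransparency false
set_option backward.defeqAttrib.useBackward true
set_option linter.unusedSectionVars false

namespace Pool.WS

open Pool.Stab

universe w v u

section

variable {C : Type u} [Category.{v} C] [Preadditive C] [HasZeroObject C] [HasShift C ℤ]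
  [∀ n : ℤ, (shiftFunctor C n).Additive] [Pretriangulated C] [IsTriangulated C] [Linear ℂ C]
  [∀ n : ℤ, (shiftFunctor C n).Linear ℂ]

lemma WSM_tri (X Z : C) (hZ : IsZero Z) :
    Triangle.mk (𝟙 X) (0 : X ⟶ Z) (0 : Z ⟶ X⟦(1 : ℤ)⟧) ∈ distTriang C := by
  refine isomorphic_distinguished _ (contractible_distinguished X) _ ?_
  exact Triangle.isoMk _ _ (Iso.refl X) (Iso.refl X) (hZ.iso (isZero_zero C))
    (by simp) (by simp) (by simp)

lemma WSM_zero : IsZero ((0 : C)⟦(-1 : ℤ)⟧) :=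
  (shiftFunctor C (-1 : ℤ)).map_isZero (isZero_zero C)

lemma WSM_refl (A : C → Prop) (hA : AbSub A) : Lowd A A := by
  constructor
  · intro X hX
    exact ⟨X, 0, 𝟙 X, 0, 0, WSM_tri X _ WSM_zero, hX, hX, hA.zero_mem (isZero_zero C),
      hA.zero_mem WSM_zero⟩
  · intro M hM
    exact ⟨0, M, 0, 𝟙 M, 0, contractible_distinguished₁ M, hA.zero_mem (isZero_zero C),
      hA.zero_mem WSM_zero, hM, hM⟩

end

section Category

variable (C : Type u) [Category.{v} C] [Preadditive C] [HasZeroObject C] [HasShift C ℤ]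
  [∀ n : ℤ, (shiftFunctor C n).Additive] [Pretriangulated C] [IsTriangulated C] [Linear ℂ C]
  [∀ n : ℤ, (shiftFunctor C n).Linear ℂ]

theorem p_WSM : Stmt_LTM.{w} C → Stmt_LWS C → Stmt_LWE C → Stmt_SIG C → Stmt_WSM.{w} C := by
  intro hLTM hLWS hLWE hSIG hK n ρ hρ ι A im G Lo Hi hM i₀ T F hT
  have inv : ∀ j, Chain G Lo T i₀ j → Lowd (A i₀) (A j) ∧ ∀ Y, F Y → A j Y := by
    intro j hj
    induction hj with
    | refl =>
      exact ⟨WSM_refl _ (hM.block i₀).toAbSub, fun Y hY => ((hT.2 Y).1 hY).1⟩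
    | @step i j S h hG hS hm ih =>
      have hdn := hM.lo i S j hG hm
      refine ⟨hLWS (A i₀) (A i) (A j) (im i) (hM.block i₀).toAbSub (hM.block i).toFinCat
        (hM.block j).toAbSub ih.1 S ((hM.block i).simple S hG) ((hT.1 S).1 hS).1 hdn, ?_⟩
      intro Y hY
      rw [hdn Y]
      exact ⟨Y, 0, 𝟙 Y, 0, 0, WSM_tri Y _ WSM_zero, ih.2 Y hY, ((hT.1 S).1 hS).2 Y hY,
        Gen.zero (isZero_zero C)⟩
  by_contra hcon
  push Not at hcon
  obtain ⟨h1, h2⟩ := hcon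
  have step : ∀ p : {j // Chain G Lo T i₀ j}, ∃ (S : C) (q : {j // Chain G Lo T i₀ j}),
      G p.1 S ∧ T S ∧ Lo p.1 S q.1 := by
    rintro ⟨j, hj⟩
    obtain ⟨M, hTM, hM'⟩ := h1 j hj (inv j hj).2
    obtain ⟨S, hS, hTS⟩ := hLWE (A i₀) (A j) (im j) (hM.block i₀).toAbSub (hM.block j).toFinCat
      (inv j hj).1 T F hT (inv j hj).2 M hTM hM'
    obtain ⟨S', hS', ⟨e⟩⟩ := hSIG hK (A j) (im j) (G j) (hM.block j).toLocalSetting S hS
    have hTS' : T S' := by
      rw [hT.1 S']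
      obtain ⟨a, b⟩ := (hT.1 S).1 hTS
      refine ⟨(hM.block i₀).toAbSub.iso_mem e a, ?_⟩
      intro Y hY f
      have := b Y hY (e.hom ≫ f)
      rw [← cancel_epi e.hom, this, comp_zero]
    obtain ⟨j', hj'⟩ := hM.lo_ex j S' hS'
    exact ⟨S', ⟨j', Chain.step hj hS' hTS' hj'⟩, hS', hTS', hj'⟩
  choose Sf nx a1 a2 a3 using step
  let sq : ℕ → {j // Chain G Lo T i₀ j} := fun k => Nat.rec ⟨i₀, Chain.refl⟩ (fun _ p => nx p) k
  obtain ⟨x, hx, hx0, hx1⟩ := hLTM hK n ρ hρ ι A im G Lo Hi hM (fun k => (sq k).1)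
    (fun k => Sf (sq k)) T F hT (fun k => a1 (sq k)) (fun k => a2 (sq k)) (fun k => a3 (sq k))
  obtain ⟨Y, hY, hY'⟩ := h2 x hx hx0
  exact absurd (hx1 Y hY) (not_le.2 hY')

end Category

end Pool.WS
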