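import Pool.Agent.Work.MP_841263_ws.Interface

open CategoryTheory CategoryTheory.Limits CategoryTheory.Pretriangulated
open scoped ZeroObject Topology RealInnerProductSpace
open Filter

set_option backward.isDefEq.respectTransparency false
set_option backward.defeqAttrib.useBackward true
set_option linter.unusedSectionVars false

namespace Pool.WS

open Pool.Stab

universe w v u

section

variable {C : Type u} [Category.{v} C] [Preadditive C] [HasZeroObject C] [HasShift C ℤ]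
  [∀ n : ℤ, (shiftFunctor C n).Additive] [Pretriangulated C] [IsTriangulated C] [Linear ℂ C]
  [∀ n : ℤ, (shiftFunctor C n).Linear ℂ]

lemma WSP_tri (X Z : C) (hZ : IsZero Z) :
    Triangle.mk (0 : Z ⟶ X) (𝟙 X) (0 : X ⟶ Z⟦(1 : ℤ)⟧) ∈ distTriang C := by
  refine isomorphic_distinguished _ (contractible_distinguished₁ X) _ ?_
  exact Triangle.isoMk _ _ (hZ.iso (isZero_zero C)) (Iso.refl X) (Iso.refl X)
    (by simp) (by simp) (by simp)

lemma WSP_zero : IsZero ((0 : C)⟦(1 : ℤ)⟧) := (shiftFunctor C (1 : ℤ)).map_isZero (isZero_zero C)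

lemma WSP_refl (A : C → Prop) (hA : AbSub A) : Upd A A := by
  constructor
  · intro X hX
    exact ⟨0, X, 0, 𝟙 X, 0, WSP_tri X _ WSP_zero, hA.zero_mem (isZero_zero C),
      hA.zero_mem WSP_zero, hX, hX⟩
  · intro M hM
    exact ⟨M, 0, 𝟙 M, 0, 0, contractible_distinguished M, hM, hM, hA.zero_mem (isZero_zero C),
      hA.zero_mem WSP_zero⟩

end

section Category

variable (C : Type u) [Category.{v} C] [Preadditive C] [HasZeroObject C] [HasShift C ℤ]
  [∀ n : ℤ, (shiftFunctor C n).Additive] [Pretriangulated C] [IsTriangulated C] [Linear ℂ C]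
  [∀ n : ℤ, (shiftFunctor C n).Linear ℂ]

theorem p_WSP : Stmt_UTM.{w} C → Stmt_UPS C → Stmt_UPE C → Stmt_SIG C → Stmt_WSP.{w} C := by
  intro hUTM hUPS hUPE hSIG hK n ρ hρ ι A im G Lo Hi hM i₀ T F hT
  have inv : ∀ j, Chain G Hi F i₀ j → Upd (A i₀) (A j) ∧ ∀ E, T E → A j E := by
    intro j hj
    induction hj with
    | refl =>
      exact ⟨WSP_refl _ (hM.block i₀).toAbSub, fun E hE => ((hT.1 E).1 hE).1⟩
    | @step i j S h hG hF hm ih =>
      have hup := hM.hi i S j hG hm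
      refine ⟨hUPS (A i₀) (A i) (A j) (im i) (hM.block i₀).toAbSub (hM.block i).toFinCat
        (hM.block j).toAbSub ih.1 S ((hM.block i).simple S hG) ((hT.2 S).1 hF).1 hup, ?_⟩
      intro E hE
      rw [hup E]
      exact ⟨0, E, 0, 𝟙 E, 0, WSP_tri E _ WSP_zero, ih.2 E hE, ((hT.1 E).1 hE).2 S hF,
        Gen.zero (isZero_zero C)⟩
  by_contra hcon
  push Not at hcon
  obtain ⟨h1, h2⟩ := hcon
  have step : ∀ p : {j // Chain G Hi F i₀ j}, ∃ (S : C) (q : {j // Chain G Hi F i₀ j}),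
      G p.1 S ∧ F S ∧ Hi p.1 S q.1 := by
    rintro ⟨j, hj⟩
    obtain ⟨N, hN, hN'⟩ := h1 j hj (inv j hj).2
    obtain ⟨S, hS, hFS⟩ := hUPE (A i₀) (A j) (im j) (hM.block i₀).toAbSub (hM.block j).toFinCat
      (inv j hj).1 T F hT (inv j hj).2 N hN hN'
    obtain ⟨S', hS', ⟨e⟩⟩ := hSIG hK (A j) (im j) (G j) (hM.block j).toLocalSetting S hS
    have hFS' : F S' := by
      rw [hT.2 S'] 
      obtain ⟨a, b⟩ := (hT.2 S).1 hFS
      refine ⟨(hM.block i₀).toAbSub.iso_mem e a, ?_⟩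
      intro E hE f
      have := b E hE (f ≫ e.inv)
      rw [← cancel_mono e.inv, this, zero_comp]
    obtain ⟨j', hj'⟩ := hM.hi_ex j S' hS'
    exact ⟨S', ⟨j', Chain.step hj hS' hFS' hj'⟩, hS', hFS', hj'⟩
  choose Sf nx a1 a2 a3 using step
  let sq : ℕ → {j // Chain G Hi F i₀ j} := fun k => Nat.rec ⟨i₀, Chain.refl⟩ (fun _ p => nx p) k
  obtain ⟨x, hx, hx0, hx1⟩ := hUTM hK n ρ hρ ι A im G Lo Hi hM (fun k => (sq k).1)
    (fun k => Sf (sq k)) T F hT (fun k => a1 (sq k)) (fun k => a2 (sq k)) (fun k => a3 (sq k))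
  obtain ⟨E, hE, hE'⟩ := h2 x hx hx0
  exact absurd (hx1 E hE) (not_le.2 hE')

end Category

end Pool.WS
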