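import Pool.Agent.Work.MP_841263_ws.Interface

/-!
# Block WSZ: weak separation, the static part
-/

open CategoryTheory CategoryTheory.Limits CategoryTheory.Pretriangulated
open scoped ZeroObject Topology RealInnerProductSpace
open Filter

set_option backward.isDefEq.respectTransparency false
set_option backward.defeqAttrib.useBackward true
set_option linter.unusedSectionVars false

namespace Pool.WS

open Pool.Stab

universe w v u

theorem p_WSZ {C : Type u} [Category.{v} C] [Preadditive C] [HasZeroObject C] [HasShift C ℤ]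
    [∀ n : ℤ, (shiftFunctor C n).Additive] [Pretriangulated C] [IsTriangulated C] [Linear ℂ C]
    [∀ n : ℤ, (shiftFunctor C n).Linear ℂ] (hCVX : Stmt_CVX) (hCRR : Stmt_CRR)
    (hHTF : Stmt_HTF C) (hTNG : Stmt_TNG C) (hEXR : Stmt_EXR C) (hEWG : Stmt_EWG C)
    (hRTS : Stmt_RTS C) : Stmt_WSZ C := by
  classical
  intro hK n ρ hG A im G hB L M hL hM hML hx hp
  obtain ⟨x1, hx1E, hx1n, hx1F⟩ := hx
  obtain ⟨p, hpE, hpn, hp⟩ := hp
  by_contra hno
  have hA : AbSub A := hB.toAbSub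
  -- the classes of the quotients of `M`
  have hfin : (Quo A M).Finite := by
    refine ((hB.fin M hM).image (fun c => cls M - c)).subset ?_
    rintro _ ⟨F, Q, f, g, hs, rfl⟩
    refine ⟨cls F, hs.left_mem, ?_⟩
    show cls M - cls F = cls Q
    rw [hs.cls_eq]
    abel
  obtain ⟨F, hF⟩ : ∃ F : Finset (EU n), ∀ f, f ∈ F ↔ ∃ c ∈ Quo A M, f = - ρ c := by
    refine ⟨(hfin.image (fun c => - ρ c)).toFinset, fun f => ?_⟩
    rw [Set.Finite.mem_toFinset]
    constructor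
    · rintro ⟨c, hc, rfl⟩
      exact ⟨c, hc, rfl⟩
    · rintro ⟨c, hc, rfl⟩
      exact ⟨c, hc, rfl⟩
  have hFE : ∀ w : EU n → ℝ, ∑ g ∈ F, w g • g ∈ EW A ρ := by
    intro w
    refine Submodule.sum_mem _ fun g hg => Submodule.smul_mem _ _ ?_
    obtain ⟨c, ⟨N', N, a, b, hs, hc⟩, rfl⟩ := (hF g).1 hg
    refine Submodule.neg_mem _ (Submodule.subset_span ⟨N, hs.2.2.1, ?_⟩)
    rw [hc]
  -- the cone
  have hclosed : IsClosed {x : EU n | x ∈ EW A ρ ∧ FB A (fn ρ x) L} := by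
    have h1 : IsClosed {x : EU n | x ∈ EW A ρ} :=
      (EW A ρ).closed_of_finiteDimensional
    have h2 : IsClosed {x : EU n | FB A (fn ρ x) L} := by
      have h3 : {x : EU n | FB A (fn ρ x) L} =
          ⋂ c ∈ Sub A L, {x : EU n | ⟪x, ρ c⟫ ≤ (0 : ℝ)} := by
        ext x
        rw [Set.mem_iInter₂]
        exact ⟨fun h c hc => h.2 c hc, fun h => ⟨hL, fun c hc => h c hc⟩⟩
      rw [h3]
      refine isClosed_biInter fun c _ => ?_
      exact isClosed_le (by fun_prop) continuous_const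
    exact h1.inter h2
  obtain ⟨w, hw, hqK, hq0⟩ := hCVX n {x : EU n | x ∈ EW A ρ ∧ FB A (fn ρ x) L} F hclosed
    (by
      rintro x ⟨hx1, hx2⟩ r hr
      refine ⟨Submodule.smul_mem _ _ hx1, hL, fun c hc => ?_⟩
      have h1 : ⟪x, ρ c⟫ ≤ (0 : ℝ) := hx2.2 c hc
      show ⟪r • x, ρ c⟫ ≤ (0 : ℝ)
      rw [real_inner_smul_left]
      exact mul_nonpos_of_nonneg_of_nonpos hr h1)
    ⟨x1, ⟨hx1E, hx1F⟩, hx1n⟩
    (by
      rintro x ⟨hx1, hx2⟩ hx0
      have h1 : ¬ TB A (fn ρ x) M := fun h => hno ⟨x, hx1, hx0, hx2, h⟩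
      have h2 : ∃ c ∈ Quo A M, fn ρ x c < 0 := by
        by_contra hcon
        push Not at hcon
        exact h1 ⟨hM, hcon⟩
      obtain ⟨c, hc, hlt⟩ := h2
      have h3 : ⟪x, ρ c⟫ < (0 : ℝ) := hlt
      refine ⟨- ρ c, (hF _).2 ⟨c, hc, rfl⟩, ?_⟩
      rw [inner_neg_right]
      linarith)
    (by
      rintro u ⟨hu1, hu2⟩ w hw ε hε hmin
      refine ⟨Submodule.sub_mem _ hu1 (Submodule.smul_mem _ _ (hFE w)), ?_⟩
      exact hTNG hK n ρ hG A im hB.toFinCat L M hL hM hML F hF u hu2 w hw ε hε hmin)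
  obtain ⟨hqE, hqF⟩ := hqK
  set q : EU n := ∑ g ∈ F, w g • g with hq
  obtain ⟨R, hRS, hR⟩ := hRTS hK n ρ hG A im G hB
  have hspan := hEWG hK n ρ A im G hB
  have key : ∀ c ∈ KW A, eulerForm hK c c = 2 → 0 < ⟪q, ρ c⟫ → 0 ≤ ⟪p, ρ c⟫ := by
    intro c hc hcc hpos
    obtain ⟨E, hE, hEc⟩ := hEXR hK n ρ hG A im G hB c hc hcc q hpos
    rw [← hEc]
    exact hp E hE.1 (hHTF A hA (fn ρ q) E L hE hqF)
  have hneg : ∀ c, c ∈ KW A → eulerForm hK c c = 2 → ⟪q, ρ c⟫ < 0 → ⟪p, ρ c⟫ ≤ 0 := by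
    intro c hc hcc hlt
    have h1 := key (-c) (neg_mem hc) (by simpa using hcc) (by
      rw [map_neg, inner_neg_right]
      linarith)
    rw [map_neg, inner_neg_right] at h1
    linarith
  rcases hCRR n R _ hRS p (hspan ▸ hpE) q (hspan ▸ hqE) (by
      intro a ha
      obtain ⟨c, hc, hcc, rfl⟩ := (hR a).1 ha
      rcases lt_trichotomy (0 : ℝ) ⟪q, ρ c⟫ with h1 | h1 | h1
      · exact mul_nonneg (key c hc hcc h1) h1.le
      · rw [← h1, mul_zero]
      · exact mul_nonneg_of_nonpos_of_nonpos (hneg c hc hcc h1) h1.le) (by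
      rw [hq, inner_sum]
      refine Finset.sum_nonpos fun g hg => ?_
      rw [real_inner_smul_right]
      refine mul_nonpos_of_nonneg_of_nonpos (hw g hg) ?_
      obtain ⟨c, ⟨N', N, a, b, hs, hc⟩, rfl⟩ := (hF g).1 hg
      have h1 := hp N hs.2.2.1 (fun φ => hs.epi hA hL φ (hML _))
      rw [inner_neg_right, ← hc]
      linarith) with h | h
  · exact hpn h
  · exact hq0 h

end Pool.WS
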