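import Mathlib
import Pool.Agent.Work.MP_841263_ws.B_GRM
import Pool.Agent.Work.MP_841263_ws.B_CVX
import Pool.Agent.Work.MP_841263_ws.B_ROT
import Pool.Agent.Work.MP_841263_ws.B_ROI
import Pool.Agent.Work.MP_841263_ws.B_CRR
import Pool.Agent.Work.MP_841263_ws.B_SEQ
import Pool.Agent.Work.MP_841263_ws.B_HTF
import Pool.Agent.Work.MP_841263_ws.B_MXS
import Pool.Agent.Work.MP_841263_ws.B_MXQ
import Pool.Agent.Work.MP_841263_ws.B_TNG
import Pool.Agent.Work.MP_841263_ws.B_FSC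
import Pool.Agent.Work.MP_841263_ws.B_FVL
import Pool.Agent.Work.MP_841263_ws.B_FUL
import Pool.Agent.Work.MP_841263_ws.B_SGN
import Pool.Agent.Work.MP_841263_ws.B_EXR
import Pool.Agent.Work.MP_841263_ws.B_EWG
import Pool.Agent.Work.MP_841263_ws.B_RTS
import Pool.Agent.Work.MP_841263_ws.B_WSZ
import Pool.Agent.Work.MP_841263_ws.B_DSC
import Pool.Agent.Work.MP_841263_ws.B_LTM
import Pool.Agent.Work.MP_841263_ws.B_UTM
import Pool.Agent.Work.MP_841263_ws.B_ISS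
import Pool.Agent.Work.MP_841263_ws.B_LWS
import Pool.Agent.Work.MP_841263_ws.B_UPS
import Pool.Agent.Work.MP_841263_ws.B_LWE
import Pool.Agent.Work.MP_841263_ws.B_UPE
import Pool.Agent.Work.MP_841263_ws.B_SIG
import Pool.Agent.Work.MP_841263_ws.B_WSM
import Pool.Agent.Work.MP_841263_ws.B_WSP
import Pool.Agent.Work.MP_841263_ws.B_TPR
import Pool.Agent.Work.MP_841263_ws.B_WSF

/-!
# Weak separation in an affine block: assembly (helper31)
-/

open CategoryTheory CategoryTheory.Limits CategoryTheory.Pretriangulated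
open scoped ZeroObject Topology RealInnerProductSpace
open Filter

set_option backward.isDefEq.respectTransparency false
set_option backward.defeqAttrib.useBackward true
set_option linter.unusedSectionVars false

namespace Pool.WS

open Pool.Stab

universe w v u

theorem c_GRM : Stmt_GRM.{u} := p_GRM
theorem c_CVX : Stmt_CVX := p_CVX
theorem c_ROT : Stmt_ROT := p_ROT
theorem c_ROI : Stmt_ROI := p_ROI
theorem c_CRR : Stmt_CRR := p_CRR c_ROT c_ROI
theorem c_SEQ : Stmt_SEQ := p_SEQ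

variable (C : Type u) [Category.{v} C] [Preadditive C] [HasZeroObject C] [HasShift C ℤ]
  [∀ n : ℤ, (shiftFunctor C n).Additive] [Pretriangulated C] [IsTriangulated C] [Linear ℂ C]
  [∀ n : ℤ, (shiftFunctor C n).Linear ℂ]

theorem c_HTF : Stmt_HTF C := p_HTF C
theorem c_MXS : Stmt_MXS C := p_MXS C
theorem c_MXQ : Stmt_MXQ C := p_MXQ C
theorem c_TNG : Stmt_TNG C := p_TNG (c_HTF C) (c_MXS C) (c_MXQ C)
theorem c_FSC : Stmt_FSC C := p_FSC C
theorem c_FVL : Stmt_FVL C := p_FVL C (c_FSC C)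
theorem c_FUL : Stmt_FUL C := p_FUL C
theorem c_SGN : Stmt_SGN C := p_SGN C
theorem c_EXR : Stmt_EXR C := p_EXR C (c_FVL C) (c_FUL C)
theorem c_EWG : Stmt_EWG C := p_EWG C
theorem c_RTS : Stmt_RTS C := p_RTS
theorem c_WSZ : Stmt_WSZ C := p_WSZ c_CVX c_CRR (c_HTF C) (c_TNG C) (c_EXR C) (c_EWG C) (c_RTS C)
theorem c_DSC : Stmt_DSC C := p_DSC C (c_FSC C) (c_FVL C) (c_SGN C) (c_EWG C)
theorem c_LTM : Stmt_LTM.{w} C := p_LTM C c_SEQ (c_DSC C)
theorem c_UTM : Stmt_UTM.{w} C := p_UTM C c_SEQ (c_DSC C)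
theorem c_ISS : Stmt_ISS C := p_ISS
theorem c_LWS : Stmt_LWS C := p_LWS C (c_ISS C)
theorem c_UPS : Stmt_UPS C := p_UPS C
theorem c_LWE : Stmt_LWE C := p_LWE
theorem c_UPE : Stmt_UPE C := p_UPE C
theorem c_SIG : Stmt_SIG C := p_SIG
theorem c_WSM : Stmt_WSM.{w} C := p_WSM C (c_LTM C) (c_LWS C) (c_LWE C) (c_SIG C)
theorem c_WSP : Stmt_WSP.{w} C := p_WSP C (c_UTM C) (c_UPS C) (c_UPE C) (c_SIG C)
theorem c_TPR : Stmt_TPR C := p_TPR C
theorem c_WSF : Stmt_WSF.{w} C := p_WSF C (c_WSM C) (c_WSP C) (c_WSZ C)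

end Pool.WS
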