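import Mathlib
import Pool.Agent.Work.MP_841263_ws.Interface

/-!
# Block FSC: finitely many classes of simple objects
-/

open CategoryTheory CategoryTheory.Limits CategoryTheory.Pretriangulated
open scoped ZeroObject Topology RealInnerProductSpace
open Filter

set_option backward.isDefEq.respectTransparency false
set_option backward.defeqAttrib.useBackward true
set_option linter.unusedSectionVars false

namespace Pool.WS

open Pool.Stab

universe w v u

variable (C : Type u) [Category.{v} C] [Preadditive C] [HasZeroObject C] [HasShift C ℤ]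
  [∀ n : ℤ, (shiftFunctor C n).Additive] [Pretriangulated C] [IsTriangulated C] [Linear ℂ C]
  [∀ n : ℤ, (shiftFunctor C n).Linear ℂ]

theorem p_FSC : Stmt_FSC C := by
  classical
  intro hK A im G h
  obtain ⟨D, hD, hD0, hDr⟩ := h.ex
  obtain ⟨L, a1, b1, -⟩ := gen_multiset (h.gen D hD)
  have hpos := h.pos D hD hD0
  have hne : L.map cls ≠ 0 := by
    intro h0
    rw [← b1, h0] at hpos
    simp at hpos
  have hR : ∀ x ∈ L.map cls, x ∈ {x | ∃ S, G S ∧ cls S = x} := by
    intro x hx
    obtain ⟨H, hH, rfl⟩ := Multiset.mem_map.1 hx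
    exact ⟨H, a1 H hH, rfl⟩
  have hfull := full_support h.toLocalSetting.offDiag h.conn hR hne (by rw [b1]; exact hDr)
  refine Set.Finite.subset (L.map cls).toFinset.finite_toSet ?_
  intro x hx
  exact Finset.mem_coe.2 (Multiset.mem_toFinset.2 (hfull x hx))

end Pool.WS
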