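import Pool.Agent.Work.MP_841263_ws.Interface

/-! # Weak separation, block ISS (helper5) -/

open CategoryTheory CategoryTheory.Limits CategoryTheory.Pretriangulated
open scoped ZeroObject Topology RealInnerProductSpace
open Filter

set_option backward.isDefEq.respectTransparency false
set_option backward.defeqAttrib.useBackward true
set_option linter.unusedSectionVars false

namespace Pool.WS

open Pool.Stab

universe w v u

section

variable {C : Type u} [Category.{v} C] [Preadditive C] [HasZeroObject C] [HasShift C ℤ]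
  [∀ n : ℤ, (shiftFunctor C n).Additive] [Pretriangulated C] [IsTriangulated C] [Linear ℂ C]
  [∀ n : ℤ, (shiftFunctor C n).Linear ℂ]

/-- A nonzero morphism from a simple object is a monomorphism. -/
theorem ISS_mono {A : C → Prop} (hA : AbSub A) {S E : C} (hS : SimpleIn A S) (hE : A E)
    (f : S ⟶ E) (hf : f ≠ 0) : ∃ (Q : C) (q : E ⟶ Q), SES A f q := by
  refine hA.exists_of_mono hS.1 hE f ?_
  intro W hW a ha
  obtain ⟨K, I, Q, k, p, i, q, h1, h2, hpi⟩ := hA.kiq hS.1 hE f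
  have hI0 : ¬ IsZero I := by
    intro h
    apply hf
    rw [← hpi, h.eq_of_tgt p 0, zero_comp]
  have hK0 : IsZero K := ((simpleIn_iff.1 hS).2.2 _ _ _ _ h1).resolve_right hI0
  have h3 : (a ≫ p) ≫ i = 0 := by rw [Category.assoc, hpi, ha]
  have h4 : a ≫ p = 0 := h2.mono hA hW _ h3
  obtain ⟨b, hb⟩ := h1.lift a h4
  rw [← hb, hK0.eq_of_src k 0, CategoryTheory.Limits.comp_zero]

theorem p_ISS : Stmt_ISS C := by
  intro A im h S hS
  refine h.induction ?_
  intro E hE h1 h2
  by_cases h0 : ∀ f : S ⟶ E, f = 0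
  · exact ⟨0, E, 0, 𝟙 E, h.ses_zero hE, Gen.zero (isZero_zero C), h0⟩
  · push Not at h0
    obtain ⟨f, hf⟩ := h0
    obtain ⟨Q₁, q₁, s1⟩ := ISS_mono h.toAbSub hS hE f hf
    obtain ⟨T, Q, a, q, s2, g, z⟩ := h2 _ _ _ _ s1 hS.2.1
    obtain ⟨F, i, m, n, s3, s4⟩ := s1.comp' h.toAbSub s2
    obtain ⟨-, -, -, d, hT⟩ := s4
    exact ⟨F, Q, i, _, s3, Gen.ext hT (Gen.of ⟨Iso.refl S⟩) g, z⟩

end

end Pool.WS
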